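import Pool.Agent.N8S.Tab

/-! # Input clauses -/

set_option autoImplicit false

namespace N8S

/-- codes -/
def ci1 : List ℕ := [
2097371, 1243, 2130651, 3801, 4260059, 4195035, 8488667, 7897,
6292699, 4393, 8488235, 6441, 8421675, 8521003, 8390443, 3369,
4227371, 8487723, 7465, 6291755, 6326059, 809, 6325547, 4905,
8487211, 4227883, 2857, 2131243, 2098987, 6953, 8389419, 6358827,
1833, 6357291, 8422187, 5929, 2097451, 1323, 3881, 4195115,
8488747, 7977, 6292779, 4217, 8488059, 6265, 6357627, 1145,
6358139, 3193, 8487547, 7289, 6291579, 6325883, 633, 6389883,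
6325371, 4729, 8487035, 2681, 635, 2098811, 6777, 8389243,
6358651, 1657, 6357115, 5753, 2097275, 1147, 2130555, 3705,
8488571, 7801, 6292603, 4337, 8488179, 6385, 8421619, 6357747,
8390387, 3313, 4227315, 8487667, 4196083, 7409, 6291699, 6390515,
6326003, 753, 6325491, 4849, 8487155, 4227827, 2801, 2131187,
2098931, 6897, 8389363, 6358771, 1777, 6357235, 5873, 2097395,
1267, 3825, 4195059, 8488691, 7921, 6292723, 4417, 8488259,
6465, 8421699, 8390467, 3393, 8487747, 7489, 6291779, 6326083,
833, 6325571, 4929, 8487235, 6977, 8389443, 6358851, 1857,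
6357315, 8422211, 3905, 8488771, 8001, 6292803, 4465, 8488307,
6513, 8421747, 6357875, 8390515, 5489, 2131827, 3441, 8487795,
4196211, 7537, 6291827, 6326131, 881, 6325619, 4977, 8487283,
4227955, 2929, 2131315, 883, 2099059, 7025, 8520051, 8389491,
6358899, 1905, 6357363, 8422259, 8521587, 6001, 2097523, 1395,
2130803, 3953, 4260211, 4195187, 8488819, 8049, 6292851, 8501795,
2081, 6365731, 6177, 6336547, 8402979, 6372387, 6357539, 6327843,
8437283, 6358051, 5153, 4239395, 4230691, 8396323, 3105, 4242979,
7201, 4235299, 8400931, 6338595, 4234787, 545, 4234275, 4235811,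
6339107, 4641, 4227619, 2593, 8499235, 4239907, 6689, 6294563,
8404003, 6358563, 1569, 6357027, 6327331, 6372899, 5665, 6365219,
6364707, 2113059, 3617, 8462371, 2109475, 8501283, 4209699, 2100771,
8461859, 7713, 4203043, 6306339, 8501835, 6336587, 6372427, 6357579,
6327883, 4239435, 4230731, 3145, 4243019, 7241, 4235339, 4234827,
4234315, 4235851, 6339147, 4242507, 2633, 4230219, 4239947, 6358603,
1609, 6327371, 6337099, 6372939, 5705, 2113099, 3657, 8501323,
4209739, 2100811, 8461899, 8501955, 6336707, 8403139, 6357699, 8499907,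
4230851, 4243139, 4234435, 4801, 4242627, 4230339, 8404163, 1729,
6357187, 8457923, 6373059, 5825, 2113219, 3777, 8462531, 8501443,
8462019, 4201, 8461419, 6249, 6336619, 8403051, 8457323, 6372459,
6357611, 8467051, 6327915, 8437355, 1129, 6358123, 5225, 4239467,
8490091, 4230763, 3177, 8502379, 6299243, 4243051, 7273, 4235371,
6338667, 4234859, 617, 4234347, 4235883, 6339179, 4713, 4242539,
8502891, 2665, 8499307, 4239979, 8490603, 6761, 8404075, 1641,
2105451, 8436843, 6337131, 8457835, 2104939, 6372971, 5737, 6365291,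
4207211, 6364779, 2113131, 3689, 8462443, 2109547, 8501355, 4209771,
8488555, 8461931, 4321, 8501987, 6369, 6336739, 8403171, 8457443,
6372579, 6357731, 8437475, 5345, 8397027, 4230883, 8396515, 3297,
8502499, 6299363, 4243171, 7393, 4234979, 6307555, 4234467, 4833,
4242659, 4230371, 6881, 8404195, 1761, 6357219, 2105571, 8436963,
6337251, 8457955, 2105059, 6373091, 5857, 15075, 2113251, 3809,
2109667, 8501475, 2100963, 8462051, 8502067, 6449, 6336819, 6372659,
8390451, 8437555, 3377, 8502579, 4243251, 8392499, 4235059, 4234547,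
4242739, 6961, 8404275, 1841, 8437043, 6337331, 8458035, 6373171,
8501555, 8461443, 6273, 8403075, 8457347, 6372483, 6357635, 8467075,
5249, 8396931, 4239491, 8490115, 8499843, 4230787, 3201, 8502403,
7297, 4235395, 8401027, 6338691, 4234883, 6307459, 4234371, 4235907,
6339203, 4737, 8502915, 2689, 8499331, 2111619]

theorem i1 : inp tt ci1 430 = true := by decide +kernel

theorem i1_len : ci1.length = 430 := by decide +kernel

end N8S
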