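import Pool.Agent.N8S.Tab

/-! # Input clauses -/

set_option autoImplicit false

namespace N8S

/-- codes -/
def ci2 : List ℕ := [
8490627, 1665, 6357123, 8466563, 6327427, 8457859, 6372995, 5761,
6365315, 6364803, 3713, 8462467, 8501379, 4209795, 2100867, 8502011,
6393, 6336763, 8403195, 6372603, 8499963, 4230907, 8502523, 4243195,
7417, 4235003, 6307579, 4234491, 4857, 4242683, 8503035, 2809,
8499451, 2111739, 4230395, 6905, 6371579, 1785, 2105595, 6337275,
8457979, 6373115, 5881, 2113275, 3833, 2109691, 8501499, 8462075,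
6473, 6336843, 8403275, 6372683, 6357835, 8437579, 8500043, 3401,
8502603, 4243275, 8392523, 4235083, 4234571, 8503115, 2889, 8499531,
4230475, 6985, 8404299, 1865, 6357323, 8437067, 6337355, 8458059,
6373195, 8502139, 6521, 6336891, 8403323, 8457595, 6372731, 6357883,
8390523, 3449, 8502651, 4243323, 7545, 6338939, 8392571, 4235131,
6307707, 889, 4234619, 4236155, 6339451, 4985, 8503163, 2937,
2111867, 7033, 6371707, 8404347, 1913, 2105723, 8458107, 2105211,
6009, 2113403, 3961, 4210043, 4241, 8488083, 8461459, 2193,
6365843, 6289, 6372499, 6357651, 8467091, 6327955, 8437395, 1169,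
6358163, 5265, 4239507, 8490131, 4230803, 8396435, 3217, 6299795,
4208787, 8502419, 4195987, 4243091, 7313, 4235411, 6338707, 6325907,
8392339, 4234899, 6307475, 657, 4234387, 6339219, 4753, 4242579,
2705, 2111635, 8490643, 6801, 6371475, 8404115, 6358675, 1681,
6357139, 8466579, 6327443, 8436883, 8457875, 2104979, 6373011, 5777,
6365331, 4197523, 4207251, 6364819, 2113171, 3729, 8462483, 8501395,
4209811, 8488595, 2100883, 8461971, 4361, 8488203, 8461579, 8502027,
2313, 6365963, 6409, 6336779, 8403211, 6372619, 6357771, 8390411,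
5385, 4239627, 4230923, 8396555, 3337, 4208907, 4243211, 7433,
4235531, 8401163, 6326027, 8392459, 4235019, 6307595, 4234507, 4873,
4242699, 2825, 8499467, 4230411, 4240139, 8490763, 6921, 6371595,
8404235, 6358795, 1801, 6357259, 2105611, 8466699, 6327563, 6337291,
8457995, 2105099, 6373131, 5897, 6365451, 6364939, 2113291, 3849,
2109707, 8501515, 4209931, 8488715, 2101003, 8462091, 4441, 8488283,
8502107, 6489, 8457563, 6372699, 6357851, 8437595, 5465, 4239707,
8490331, 4231003, 3417, 8502619, 4243291, 7513, 6338907, 857,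
6339419, 4953, 4242779, 8503131, 4240219, 8490843, 7001, 8404315,
1881, 8437083, 6337371, 8458075, 6373211, 8501595, 8488795, 4489,
8488331, 8502155, 2441, 6366091, 6537, 6336907, 8403339, 8457611,
6372747, 6357899, 8467339, 8390539, 1417, 6358411, 5513, 8397195,
8490379, 8500107, 4231051, 3465, 8502667, 7561, 4235659, 8401291,
6338955, 8392587, 4235147, 6307723, 905, 4234635, 4236171, 5001,
8503179, 2953, 8499595, 4230539, 8490891, 7049, 6371723, 6294923,
8404363, 6358923, 6393739, 1929, 6357387, 8466827, 8437131, 6337419,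
8458123, 2105227, 6373259, 6025, 6365579, 4197771, 6365067, 2113419,
3977, 8462731, 8501643, 4210059, 8488843, 8073, 6306699, 4513,
8488355, 8461731, 8502179, 2465, 6366115, 6561, 8403363, 6372771,
6357923, 8467363, 1441, 6358435, 5537, 8490403, 8396707, 3489,
6300067, 8502691, 4196259, 4243363, 7585, 4235683, 8401315, 6338979,
6326179, 8392611, 4235171, 6307747, 929, 6339491, 5025, 4242851,
2977, 8499619, 8490915, 7073, 6371747, 6294947, 8404387, 6358947,
6393763, 1953, 6357411, 8466851, 6327715, 8437155, 8458147, 2105251,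
6373283, 6049, 6365603, 4197795, 2113443, 4001, 8501667, 4210083,
8488867, 2101155, 8462243, 6185, 8421419, 6336555, 6357547, 6327851,
5161, 4239403, 3113, 4227115, 7209, 6325803, 8392235, 4234795,
2601, 2098731, 8490539, 6697, 6337067, 5673, 2097195, 3625,
2109483, 4194859, 8488491, 2100779, 8461867, 6225, 6372435, 6357587,
6327891, 4239443, 4235347, 6338643, 4234835, 593, 4235859, 4230227,
4239955, 6357075, 6337107, 5713, 2097235, 3665]

theorem i2 : inp tt ci2 860 = true := by decide +kernel

theorem i2_len : ci2.length = 430 := by decide +kernel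

end N8S
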