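import Pool.Agent.N8S.Tab

/-! # Input clauses -/

set_option autoImplicit false

namespace N8S

/-- codes -/
def ci3 : List ℕ := [
2109523, 4194899, 6345, 8390347, 4239563, 4227275, 4235979, 4809,
4227787, 1737, 6357195, 5833, 2097355, 3785, 8462539, 2109643,
4195019, 6257, 8421491, 6336627, 8403059, 6372467, 6357619, 8467059,
8390259, 6327923, 5233, 8499827, 4230771, 3185, 4227187, 7281,
6291571, 4235379, 6325875, 4234867, 625, 4234355, 4721, 4227699,
4230259, 6769, 1649, 6357107, 2105459, 6327411, 8422003, 2104947,
5745, 2097267, 6365299, 3697, 4194931, 8488563, 2100851, 6377,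
8421611, 6357739, 8390379, 5353, 8397035, 4239595, 8396523, 3305,
4227307, 8487659, 4841, 4227819, 4240107, 6889, 8389355, 1769,
6357227, 2105579, 8466667, 8422123, 2105067, 5865, 2097387, 8462571,
8488683, 6457, 8421691, 6372667, 6357819, 8390459, 8487739, 7481,
4235579, 8392507, 4236091, 6969, 8389435, 1849, 2105659, 8466747,
8422203, 6373179, 2097467, 6281, 8421515, 8403083, 8457355, 6357643,
8467083, 8390283, 6327947, 5257, 4239499, 8490123, 8499851, 8396427,
8487563, 7305, 6291595, 6325899, 8392331, 2697, 8490635, 1673,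
6357131, 5769, 6365323, 4197515, 3721, 8501387, 8488587, 8461963,
8488195, 6401, 6372611, 6357763, 8390403, 8487683, 7425, 6291715,
8487171, 4227843, 8490755, 6358787, 1793, 6357251, 6327555, 6373123,
6365443, 8488275, 6481, 8421715, 6357843, 849, 4236115, 6993,
8389459, 1873, 6357331, 8422227, 8488323, 6529, 6372739, 6357891,
8390531, 8490371, 3457, 6300035, 8487811, 7553, 4235651, 8401283,
8392579, 2945, 2099075, 8490883, 7041, 8389507, 6017, 2097539,
6365571, 6364315, 6297, 8457371, 6357659, 8467099, 6327963, 5273,
8396955, 4239515, 8499867, 8396443, 3225, 4208795, 6299291, 7321,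
6291611, 4235419, 8401051, 6338715, 6325915, 4234907, 665, 6325403,
4234395, 4761, 8487067, 4227739, 2713, 4230299, 2098843, 6809,
6371483, 6294683, 8389275, 6358683, 1689, 6357147, 8466587, 8422043,
5785, 2097307, 6365339, 4207259, 6364827, 3737, 8462491, 2109595,
8501403, 4194971, 8488603, 7833, 4201627, 6417, 6336787, 6357779,
8390419, 6328083, 5393, 8397075, 4239635, 4230931, 4227347, 7441,
4235539, 8401171, 6338835, 8392467, 4235027, 4881, 4227859, 2833,
4230419, 6929, 8389395, 6358803, 6357267, 2105619, 8466707, 2105107,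
3857, 8462611, 2109715, 4195091, 2101011, 4449, 8488291, 8502115,
6497, 8421731, 6372707, 6357859, 8467299, 6328163, 8500067, 4231011,
7521, 6291811, 865, 4236131, 4961, 8487267, 4227939, 8490851,
7009, 8389475, 1889, 6357347, 6327651, 8422243, 6545, 8457619,
6357907, 8467347, 8390547, 5521, 8397203, 4239763, 8500115, 3473,
8487827, 7569, 6291859, 4235667, 8401299, 6326163, 8392595, 4235155,
5009, 8487315, 4227987, 2961, 8499603, 8490899, 7057, 8389523,
6358931, 1937, 6357395, 2105747, 8466835, 8422291, 6337427, 8458131,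
6033, 2097555, 6365587, 3985, 8462739, 8501651, 8462227, 4521,
8488363, 6569, 6357931, 8390571, 8500139, 3497, 8487851, 6299563,
7593, 6291883, 8401323, 6338987, 8392619, 2985, 8499627, 8490923,
7081, 8389547, 6304683, 6358955, 1961, 6357419, 6327723, 8422315,
6337451, 4009, 8488875, 2209, 6305, 8467107, 6305443, 5281,
4196515, 4208291, 4230819, 8487587, 4200611, 4204195, 673, 2099363,
2111139, 2721, 8499363, 6366883, 6817, 2103459, 6371491, 2107043,
5793, 2097315, 8463131, 6425, 8467227, 6328091, 4239643, 4196635,
4227355, 7449, 4235547, 4200731, 4204315, 4235035, 4889, 8460571,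
8464155, 2841, 2111771, 6937, 2107163, 8437611, 7529, 6338923,
8435563, 6373227, 6553, 6336923, 8467355, 5529, 4239771, 8490395,
3481, 4227483, 8487835, 4243355, 7577, 8401307, 4200859, 6338971,
6326171, 6307739, 2969, 8499611, 2111899, 2103707, 2105243, 3993,
8501659, 6577, 8467379, 6305715, 6328243, 3505]

theorem i3 : inp tt ci3 1290 = true := by decide +kernel

theorem i3_len : ci3.length = 430 := by decide +kernel

end N8S
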