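import Pool.Agent.N8S.I0
import Pool.Agent.N8S.I1
import Pool.Agent.N8S.I2
import Pool.Agent.N8S.I3
import Pool.Agent.N8S.I4
import Pool.Agent.N8S.I5
import Pool.Agent.N8S.I6
import Pool.Agent.N8S.I7
import Pool.Agent.N8S.H0
import Pool.Agent.N8S.H1
import Pool.Agent.N8S.H2
import Pool.Agent.N8S.H3
import Pool.Agent.N8S.H4
import Pool.Agent.N8S.H5
import Pool.Agent.N8S.H6
import Pool.Agent.N8S.H7
import Pool.Agent.N8S.H8
import Pool.Agent.N8S.H9
import Pool.Agent.N8S.H10
import Pool.Agent.N8S.H11

/-! # The certificate: no strict clique of eight vectors -/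

set_option autoImplicit false

namespace N8S

theorem ent_last : ent tt 6468 = 0 := by
  have h : Nat.beq (ent tt 6468) 0 = true := by decide +kernel
  exact Nat.eq_of_beq_eq_true h

/-- **The refutation.** -/
theorem cert (W : Fin 8 → Fin 4 → ℝ) : ¬ Hyp W := by
  intro hW
  have g : Good (val W) tt 0 := fun e he => absurd he (Nat.not_lt_zero e)
  replace g := inp_sound hW ci0 0 i0 g
  rw [i0_len] at g
  replace g : Good (val W) tt 430 := g
  replace g := inp_sound hW ci1 430 i1 g
  rw [i1_len] at g
  replace g : Good (val W) tt 860 := g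
  replace g := inp_sound hW ci2 860 i2 g
  rw [i2_len] at g
  replace g : Good (val W) tt 1290 := g
  replace g := inp_sound hW ci3 1290 i3 g
  rw [i3_len] at g
  replace g : Good (val W) tt 1720 := g
  replace g := inp_sound hW ci4 1720 i4 g
  rw [i4_len] at g
  replace g : Good (val W) tt 2150 := g
  replace g := inp_sound hW ci5 2150 i5 g
  rw [i5_len] at g
  replace g : Good (val W) tt 2580 := g
  replace g := inp_sound hW ci6 2580 i6 g
  rw [i6_len] at g
  replace g : Good (val W) tt 3010 := g
  replace g := inp_sound hW ci7 3010 i7 g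
  rw [i7_len] at g
  replace g : Good (val W) tt 3409 := g
  replace g := chk_sound ch0 3409 h0 g
  rw [h0_len] at g
  replace g : Good (val W) tt 3561 := g
  replace g := chk_sound ch1 3561 h1 g
  rw [h1_len] at g
  replace g : Good (val W) tt 4061 := g
  replace g := chk_sound ch2 4061 h2 g
  rw [h2_len] at g
  replace g : Good (val W) tt 4977 := g
  replace g := chk_sound ch3 4977 h3 g
  rw [h3_len] at g
  replace g : Good (val W) tt 5193 := g
  replace g := chk_sound ch4 5193 h4 g
  rw [h4_len] at g
  replace g : Good (val W) tt 5355 := g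
  replace g := chk_sound ch5 5355 h5 g
  rw [h5_len] at g
  replace g : Good (val W) tt 5593 := g
  replace g := chk_sound ch6 5593 h6 g
  rw [h6_len] at g
  replace g : Good (val W) tt 5806 := g
  replace g := chk_sound ch7 5806 h7 g
  rw [h7_len] at g
  replace g : Good (val W) tt 5968 := g
  replace g := chk_sound ch8 5968 h8 g
  rw [h8_len] at g
  replace g : Good (val W) tt 6125 := g
  replace g := chk_sound ch9 6125 h9 g
  rw [h9_len] at g
  replace g : Good (val W) tt 6226 := g
  replace g := chk_sound ch10 6226 h10 g
  rw [h10_len] at g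
  replace g : Good (val W) tt 6343 := g
  replace g := chk_sound ch11 6343 h11 g
  rw [h11_len] at g
  replace g : Good (val W) tt 6469 := g
  have h := g 6468 (by norm_num)
  rw [ent_last] at h
  exact not_CS_zero h

end N8S
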