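import Pool.Agent.N8S.Gen

/-!
# The checker

Clauses are numbers: the digits in base `4096` are the literals.  The literal `d` is the variable
`d / 2 - 1`, positive if `d` is even.
-/

set_option autoImplicit false

namespace N8S

/-- evaluate `n`, then continue -/
noncomputable def force (n : ℕ) (k : ℕ → Bool) : Bool :=
  Nat.rec (motive := fun _ => Bool) (k 0) (fun m _ => k (Nat.succ m)) n

theorem force_eq (n : ℕ) (k : ℕ → Bool) : force n k = k n := by
  cases n <;> rfl

/-- evaluate `n`, then continue -/
noncomputable def forceN (n : ℕ) (k : ℕ → ℕ) : ℕ :=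
  Nat.rec (motive := fun _ => ℕ) (k 0) (fun m _ => k (Nat.succ m)) n

theorem forceN_eq (n : ℕ) (k : ℕ → ℕ) : forceN n k = k n := by
  cases n <;> rfl

/-- binary tree of numbers -/
inductive T
  | lf (n : ℕ) : T
  | nd (l r : T) : T

/-- the leaf with index `i` (low bits first) -/
noncomputable def T.get (t : T) : ℕ → ℕ :=
  T.rec (motive := fun _ => ℕ → ℕ) (fun n _ => n)
    (fun _ _ l r i => bif Nat.beq (Nat.mod i 2) 0 then l (Nat.div i 2) else r (Nat.div i 2)) t

/-- the entry `e` of the packed data (64 entries of 420 bits in each leaf) -/
noncomputable def ent (t : T) (e : ℕ) : ℕ :=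
  Nat.mod (Nat.shiftRight (t.get (Nat.div e 64)) (Nat.mul 420 (Nat.mod e 64))) (Nat.pow 2 420)

/-- the negation of a literal -/
def ng (u : ℕ) : ℕ := bif Nat.beq (Nat.mod u 2) 0 then Nat.succ u else Nat.pred u

/-- Go through the digits of `c`: `F` are the false literals, `u` is the literal found so far;
the answer `4096` is a failure. -/
noncomputable def scan (F : ℕ) (fuel : ℕ) : ℕ → ℕ → ℕ :=
  Nat.rec (motive := fun _ => ℕ → ℕ → ℕ) (fun _ _ => 4096)
    (fun _ ih c u =>
      bif Nat.beq c 0 then u else
      bif Nat.beq (Nat.land (Nat.shiftRight F (Nat.mod c 4096)) 1) 1 then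
        forceN (Nat.div c 4096) fun c' => ih c' u
      else bif Nat.beq u 0 then
        forceN (Nat.mod c 4096) fun d => forceN (Nat.div c 4096) fun c' => ih c' d
      else 4096) fuel

/-- Reverse unit propagation: `F` are the literals known to be false; the hints are the digits of
`h` in base `8192`. -/
noncomputable def rup (t : T) (bd : ℕ) (fuel : ℕ) : ℕ → ℕ → Bool :=
  Nat.rec (motive := fun _ => ℕ → ℕ → Bool) (fun _ _ => false)
    (fun _ ih h F =>
      force (Nat.mod h 8192) fun e =>
      bif Nat.ble bd e then false else
      force (ent t e) fun c =>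
      force (scan F 40 c 0) fun u =>
      bif Nat.beq u 0 then true else
      bif Nat.beq u 4096 then false else
      force (Nat.div h 8192) fun h' =>
      force (Nat.lor F (Nat.pow 2 (ng u))) fun F' => ih h' F') fuel

/-- the mask of the literals of a clause -/
noncomputable def mask (fuel : ℕ) : ℕ → ℕ → ℕ :=
  Nat.rec (motive := fun _ => ℕ → ℕ → ℕ) (fun _ F => F)
    (fun _ ih c F =>
      bif Nat.beq c 0 then F else
      forceN (Nat.lor F (Nat.pow 2 (Nat.mod c 4096))) fun F' =>
      forceN (Nat.div c 4096) fun c' => ih c' F') fuel

/-- check the learned clauses `e, e+1, …` with their packed hints -/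
noncomputable def chk (t : T) (hs : List ℕ) : ℕ → Bool :=
  List.rec (motive := fun _ => ℕ → Bool) (fun _ => true)
    (fun h _ ih e =>
      bif force (mask 40 (ent t e) 0) (fun F => rup t e 200 h F) then
        force (Nat.succ e) (fun e' => ih e') else false) hs

/-- is `c` the number of the clause `l` -/
noncomputable def ckl : List (ℕ × Bool) → ℕ → Bool :=
  List.rec (motive := fun _ => ℕ → Bool) (fun c => Nat.beq c 0)
    (fun p _ ih c =>
      bif Nat.beq (Nat.add (Nat.mul 2 (Nat.succ p.1)) (bif p.2 then 0 else 1)) (Nat.mod c 4096) then
        force (Nat.div c 4096) fun c' => ih c' else false)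

/-- check the input clauses `e, e+1, …` with their codes -/
noncomputable def inp (t : T) (cs : List ℕ) : ℕ → Bool :=
  List.rec (motive := fun _ => ℕ → Bool) (fun _ => true)
    (fun c _ ih e =>
      bif valid c then
        (bif force (ent t e) (fun x => ckl (gen c) x) then
          force (Nat.succ e) (fun e' => ih e') else false) else false) cs

/-! ### Soundness -/

/-- the literal `d` is true -/
def L (v : ℕ → Bool) (d : ℕ) : Prop := 2 ≤ d ∧ v (d / 2 - 1) = decide (d % 2 = 0)

theorem not_L_ng {v : ℕ → Bool} {d : ℕ} (h : L v d) : ¬ L v (ng d) := by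
  obtain ⟨h1, h2⟩ := h
  rintro ⟨h3, h4⟩
  rcases Nat.mod_two_eq_zero_or_one d with h5 | h5
  · have e1 : ng d = d + 1 := by
      unfold ng
      have : Nat.beq (Nat.mod d 2) 0 = true := by
        have : Nat.mod d 2 = 0 := h5
        rw [this]; rfl
      rw [this]; rfl
    rw [e1] at h4
    have e2 : (d + 1) / 2 - 1 = d / 2 - 1 := by omega
    have e3 : (d + 1) % 2 = 1 := by omega
    rw [e2, h2, h5, e3] at h4
    simp at h4
  · have e1 : ng d = d - 1 := by
      unfold ng
      have : Nat.beq (Nat.mod d 2) 0 = false := by
        have : Nat.mod d 2 = 1 := h5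
        rw [this]; rfl
      rw [this]; rfl
    rw [e1] at h4
    have e2 : (d - 1) / 2 - 1 = d / 2 - 1 := by omega
    have e3 : (d - 1) % 2 = 0 := by omega
    rw [e2, h2, h5, e3] at h4
    simp at h4

/-- digit -/
def dig (c k : ℕ) : ℕ := c / 4096 ^ k % 4096

theorem dig_zero (c : ℕ) : dig c 0 = c % 4096 := by simp [dig]

theorem dig_succ (c k : ℕ) : dig c (k + 1) = dig (c / 4096) k := by
  unfold dig
  rw [Nat.pow_succ', Nat.div_div_eq_div_mul]

/-- the clause `c` is satisfied -/
def CS (v : ℕ → Bool) (c : ℕ) : Prop := ∃ k, L v (dig c k)

theorem CS_step {v : ℕ → Bool} {c : ℕ} : CS v c ↔ L v (c % 4096) ∨ CS v (c / 4096) := by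
  constructor
  · rintro ⟨k, hk⟩
    cases k with
    | zero => left; rwa [dig_zero] at hk
    | succ k => right; exact ⟨k, by rwa [dig_succ] at hk⟩
  · rintro (h | ⟨k, hk⟩)
    · exact ⟨0, by rwa [dig_zero]⟩
    · exact ⟨k + 1, by rwa [dig_succ]⟩

theorem not_CS_zero {v : ℕ → Bool} : ¬ CS v 0 := by
  rintro ⟨k, hk⟩
  have : dig 0 k = 0 := by simp [dig]
  rw [this] at hk
  exact absurd hk.1 (by norm_num)

/-- bit test -/
theorem land_one {F d : ℕ} : Nat.beq (Nat.land (Nat.shiftRight F d) 1) 1 = F.testBit d := by
  have h1 : Nat.land (Nat.shiftRight F d) 1 = (F >>> d) &&& 1 := rfl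
  rw [h1, Nat.testBit_eq_decide_div_mod_eq, Nat.and_one_is_mod, Nat.shiftRight_eq_div_pow]
  cases h : Nat.beq (F / 2 ^ d % 2) 1
  · have := Nat.ne_of_beq_eq_false h
    simp [this]
  · have := Nat.eq_of_beq_eq_true h
    simp [this]

theorem scan_sound {v : ℕ → Bool} {F : ℕ} (hF : ∀ d, F.testBit d = true → ¬ L v d) :
    ∀ (fuel c u : ℕ), scan F fuel c u ≠ 4096 → (CS v c ∨ L v u) → L v (scan F fuel c u) := by
  intro fuel
  induction fuel with
  | zero => intro c u h; exact absurd rfl h
  | succ m ih =>
    intro c u h hc
    have he : scan F (m + 1) c u = bif Nat.beq c 0 then u else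
      bif Nat.beq (Nat.land (Nat.shiftRight F (Nat.mod c 4096)) 1) 1 then
        forceN (Nat.div c 4096) fun c' => scan F m c' u
      else bif Nat.beq u 0 then
        forceN (Nat.mod c 4096) fun d => forceN (Nat.div c 4096) fun c' => scan F m c' d
      else 4096 := rfl
    simp only [forceN_eq, land_one] at he
    rw [he] at h ⊢
    cases h0 : Nat.beq c 0 with
    | true =>
      rw [cond_true]
      have : c = 0 := Nat.eq_of_beq_eq_true h0
      subst this
      exact hc.resolve_left not_CS_zero
    | false =>
      rw [h0, cond_false] at h
      rw [cond_false]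
      cases h1 : F.testBit (Nat.mod c 4096) with
      | true =>
        rw [h1, cond_true] at h
        rw [cond_true]
        refine ih _ _ h ?_
        rcases hc with hc | hc
        · rcases CS_step.1 hc with h2 | h2
          · exact absurd h2 (hF _ h1)
          · exact Or.inl h2
        · exact Or.inr hc
      | false =>
        rw [h1, cond_false] at h
        rw [cond_false]
        cases h2 : Nat.beq u 0 with
        | true =>
          rw [h2, cond_true] at h
          rw [cond_true]
          have : u = 0 := Nat.eq_of_beq_eq_true h2
          subst this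
          refine ih _ _ h ?_
          rcases hc with hc | hc
          · exact (CS_step.1 hc).symm
          · exact absurd hc.1 (by norm_num)
        | false =>
          rw [h2, cond_false] at h
          exact absurd rfl h

/-- the clauses of the entries below `bd` are satisfied -/
def Good (v : ℕ → Bool) (t : T) (bd : ℕ) : Prop := ∀ e < bd, CS v (ent t e)

theorem rup_sound {v : ℕ → Bool} {t : T} {bd : ℕ} (hG : Good v t bd) :
    ∀ (fuel h F : ℕ), rup t bd fuel h F = true → (∀ d, F.testBit d = true → ¬ L v d) →
      False := by
  intro fuel
  induction fuel with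
  | zero => intro h F hr; exact absurd hr (by simp [rup])
  | succ m ih =>
    intro h F hr hF
    have hr' : (force (Nat.mod h 8192) fun e =>
      bif Nat.ble bd e then false else
      force (ent t e) fun c =>
      force (scan F 40 c 0) fun u =>
      bif Nat.beq u 0 then true else
      bif Nat.beq u 4096 then false else
      force (Nat.div h 8192) fun h' =>
      force (Nat.lor F (Nat.pow 2 (ng u))) fun F' => rup t bd m h' F') = true := hr
    simp only [force_eq] at hr'
    set e := Nat.mod h 8192 with he
    cases hbd : Nat.ble bd e with
    | true => rw [hbd] at hr'; simp at hr'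
    | false =>
      rw [hbd, cond_false] at hr'
      have hlt : e < bd := by
        by_contra hc
        have : Nat.ble bd e = true := Nat.ble_eq_true_of_le (not_lt.1 hc)
        rw [this] at hbd; cases hbd
      have hs := scan_sound hF 40 (ent t e) 0
      set u := scan F 40 (ent t e) 0 with hu
      have hL : u ≠ 4096 → L v u := fun h1 => hs h1 (Or.inl (hG e hlt))
      cases h0 : Nat.beq u 0 with
      | true =>
        have h1 : u = 0 := Nat.eq_of_beq_eq_true h0
        have h2 := hL (by rw [h1]; norm_num)
        rw [h1] at h2
        exact absurd h2.1 (by norm_num)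
      | false =>
        rw [h0, cond_false] at hr'
        cases h1 : Nat.beq u 4096 with
        | true => rw [h1] at hr'; simp at hr'
        | false =>
          rw [h1, cond_false] at hr'
          have h2 := hL (Nat.ne_of_beq_eq_false h1)
          refine ih _ _ hr' ?_
          intro d hd
          have hd' : (F ||| 2 ^ ng u).testBit d = true := hd
          rw [Nat.testBit_or] at hd'
          cases hFd : F.testBit d with
          | true => exact hF d hFd
          | false =>
            rw [hFd, Bool.false_or, Nat.testBit_two_pow] at hd'
            have : ng u = d := by simpa using hd'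
            rw [← this]
            exact not_L_ng h2

theorem mask_sound : ∀ (fuel c F d : ℕ), (mask fuel c F).testBit d = true →
    F.testBit d = true ∨ ∃ k, dig c k = d := by
  intro fuel
  induction fuel with
  | zero => intro c F d h; exact Or.inl h
  | succ m ih =>
    intro c F d h
    have he : mask (m + 1) c F = bif Nat.beq c 0 then F else
      forceN (Nat.lor F (Nat.pow 2 (Nat.mod c 4096))) fun F' =>
      forceN (Nat.div c 4096) fun c' => mask m c' F' := rfl
    simp only [forceN_eq] at he
    rw [he] at h
    cases h0 : Nat.beq c 0 with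
    | true => rw [h0, cond_true] at h; exact Or.inl h
    | false =>
      rw [h0, cond_false] at h
      rcases ih _ _ _ h with h1 | ⟨k, hk⟩
      · have h1' : (F ||| 2 ^ (c % 4096)).testBit d = true := h1
        rw [Nat.testBit_or] at h1'
        cases hF : F.testBit d with
        | true => exact Or.inl rfl
        | false =>
          rw [hF, Bool.false_or, Nat.testBit_two_pow] at h1'
          exact Or.inr ⟨0, by rw [dig_zero]; simpa using h1'⟩
      · exact Or.inr ⟨k + 1, by rw [dig_succ]; exact hk⟩

theorem chk_sound {v : ℕ → Bool} {t : T} : ∀ (hs : List ℕ) (e : ℕ), chk t hs e = true →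
    Good v t e → Good v t (e + hs.length) := by
  intro hs
  induction hs with
  | nil => intro e _ h; exact h
  | cons h hs ih =>
    intro e he hG
    have he' : (bif force (mask 40 (ent t e) 0) (fun F => rup t e 200 h F) then
        force (Nat.succ e) (fun e' => chk t hs e') else false) = true := he
    simp only [force_eq] at he'
    cases hr : rup t e 200 h (mask 40 (ent t e) 0) with
    | false => rw [hr] at he'; simp at he'
    | true =>
      rw [hr, cond_true] at he'
      have hG' : Good v t (e + 1) := by
        intro j hj
        rcases Nat.lt_succ_iff_lt_or_eq.1 hj with hj | hj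
        · exact hG j hj
        · rw [hj]
          by_contra hn
          refine rup_sound hG 200 h _ hr ?_
          intro d hd hL
          rcases mask_sound _ _ _ _ hd with h1 | ⟨k, hk⟩
          · simp at h1
          · exact hn ⟨k, by rw [hk]; exact hL⟩
      have := ih (e + 1) he' hG'
      rw [List.length_cons]
      have h3 : e + (hs.length + 1) = e + 1 + hs.length := by ring
      rw [h3]; exact this

theorem ckl_sound {v : ℕ → Bool} : ∀ (l : List (ℕ × Bool)) (c : ℕ), ckl l c = true →
    (∃ p ∈ l, v p.1 = p.2) → CS v c := by
  intro l
  induction l with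
  | nil => rintro _ _ ⟨p, hp, _⟩; cases hp
  | cons q l ih =>
    intro c hc h
    have he : ckl (q :: l) c =
      bif Nat.beq (2 * (q.1 + 1) + (bif q.2 then 0 else 1)) (c % 4096) then
        force (Nat.div c 4096) fun c' => ckl l c' else false := rfl
    rw [he, force_eq] at hc
    cases hb : Nat.beq (2 * (q.1 + 1) + (bif q.2 then 0 else 1)) (c % 4096) with
    | false => rw [hb] at hc; simp at hc
    | true =>
      rw [hb, cond_true] at hc
      have h1 := Nat.eq_of_beq_eq_true hb
      rw [CS_step]
      obtain ⟨p, hp, hv⟩ := h
      rcases List.mem_cons.1 hp with rfl | hp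
      · left
        rw [← h1]
        have hb2 : (bif p.2 then 0 else 1 : ℕ) < 2 := by cases p.2 <;> simp
        refine ⟨by omega, ?_⟩
        have e1 : (2 * (p.1 + 1) + (bif p.2 then 0 else 1)) / 2 - 1 = p.1 := by omega
        rw [e1, hv]
        cases p.2
        · have : (2 * (p.1 + 1) + (bif false then 0 else 1)) % 2 = 1 := by
            rw [cond_false]; omega
          rw [this]; rfl
        · have : (2 * (p.1 + 1) + (bif true then 0 else 1)) % 2 = 0 := by
            rw [cond_true]; omega
          rw [this]; rfl
      · right
        exact ih _ hc ⟨p, hp, hv⟩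

theorem inp_sound {W : Fin 8 → Fin 4 → ℝ} (hW : Hyp W) {t : T} : ∀ (cs : List ℕ) (e : ℕ),
    inp t cs e = true → Good (val W) t e → Good (val W) t (e + cs.length) := by
  intro cs
  induction cs with
  | nil => intro e _ h; exact h
  | cons c cs ih =>
    intro e he hG
    have he' : (bif valid c then
        (bif force (ent t e) (fun x => ckl (gen c) x) then
          force (Nat.succ e) (fun e' => inp t cs e') else false) else false) = true := he
    simp only [force_eq] at he'
    cases hv : valid c with
    | false => rw [hv] at he'; simp at he'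
    | true =>
      rw [hv, cond_true] at he'
      cases hr : ckl (gen c) (ent t e) with
      | false => rw [hr] at he'; simp at he'
      | true =>
        rw [hr, cond_true] at he'
        have hG' : Good (val W) t (e + 1) := by
          intro j hj
          rcases Nat.lt_succ_iff_lt_or_eq.1 hj with hj | hj
          · exact hG j hj
          · rw [hj]
            exact ckl_sound _ _ hr (gen_sound hW c hv)
        have := ih (e + 1) he' hG'
        rw [List.length_cons]
        have h3 : e + (cs.length + 1) = e + 1 + cs.length := by ring
        rw [h3]; exact this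

end N8S
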