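import Pool.Agent.N8S.Rels

/-!
# The clauses and their validity for strict cliques of eight vectors
-/

set_option autoImplicit false

namespace N8S

open BS9 Finset

theorem blt_lt {a b : ℕ} (h : Nat.blt a b = true) : a < b := by rwa [Nat.blt_eq] at h

theorem lt_blt {a b : ℕ} (h : a < b) : Nat.blt a b = true := by rwa [Nat.blt_eq]

theorem sb_true : sb true = -1 := by simp [sb]

theorem sb_false : sb false = 1 := by simp [sb]

/-- parameter `k` of a code -/
def pr (c k : ℕ) : ℕ := Nat.mod (Nat.div c (Nat.mul 8 (Nat.pow 64 k))) 64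

/-- bit as Bool -/
def tb (n k : ℕ) : Bool := Nat.beq (Nat.mod (Nat.div n (Nat.pow 2 k)) 2) 1

/-- sign of the relation coefficient: `G` are the signs of the minors -/
def Cb (G k : ℕ) : Bool := xor (tb G k) (tb k 0)

/-- is `k` one of `i`, `j` -/
def mem (i j k : ℕ) : Bool := Nat.beq k i || Nat.beq k j

/-- the sign vector of a clause (T) -/
def eT (G i j : ℕ) (f : Bool) (k : ℕ) : Bool := xor (xor f (!(mem i j k))) (Cb G k)

/-- not positive and negative -/
def gen1 (b e : ℕ) : List (ℕ × Bool) :=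
  [(70 + 32 * b + 2 * e, false), (70 + 32 * b + 2 * e + 1, false)]

/-- (T) -/
def gen3 (b G i j : ℕ) (f : Bool) : List (ℕ × Bool) :=
  [(xkey (T5.getD b 0) 0, tb G 0), (xkey (T5.getD b 0) 1, tb G 1), (xkey (T5.getD b 0) 2, tb G 2),
    (xkey (T5.getD b 0) 3, tb G 3), (xkey (T5.getD b 0) 4, tb G 4), (skey b (eT G i j f) (!f), true)]

/-- Grassmann - Plücker -/
def gen5 (a p q r s g : ℕ) : List (ℕ × Bool) :=
  [(xkey2 (A6.getD a 0) p q, tb g 0), (xkey2 (A6.getD a 0) r s, tb g 1),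
    (xkey2 (A6.getD a 0) p r, tb g 2), (xkey2 (A6.getD a 0) q s, tb g 3),
    (xkey2 (A6.getD a 0) p s, tb g 4), (xkey2 (A6.getD a 0) q r, tb g 5)]

/-- the literal `the lifted determinant without the position p has the sign s` or its negation -/
def lit6 (a E p : ℕ) (first s sg : Bool) : ℕ × Bool :=
  bif first then (skey (r5A (A6.getD a 0) p) (fun i => tb E (skip p i)) (xor sg s), false)
  else (skey (r5A (A6.getD a 0) p) (fun i => tb E (skip p i)) (xor (!sg) s), true)

/-- mixed relations -/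
def gen6 (a p q r E i : ℕ) (s1 s2 s3 sg : Bool) : List (ℕ × Bool) :=
  [(xkey2 (A6.getD a 0) q r, s1), (xkey2 (A6.getD a 0) p r, s2), (xkey2 (A6.getD a 0) p q, s3),
    lit6 a E p (Nat.beq i 0) s1 sg, lit6 a E q (Nat.beq i 1) (!s2) sg,
    lit6 a E r (Nat.beq i 2) s3 sg]

/-- the determinant variable of four numbers -/
def gen7 (i j : ℕ) : List (ℕ × Bool) := [(r4 0 1 i j, true)]

/-- the clause of a code -/
def gen (c : ℕ) : List (ℕ × Bool) :=
  bif Nat.beq (Nat.mod c 8) 1 then gen1 (pr c 0) (pr c 1)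
  else bif Nat.beq (Nat.mod c 8) 3 then gen3 (pr c 0) (pr c 1) (pr c 2) (pr c 3) (tb (pr c 4) 0)
  else bif Nat.beq (Nat.mod c 8) 5 then
    gen5 (pr c 0) (pr c 1) (pr c 2) (pr c 3) (pr c 4) (pr c 5)
  else bif Nat.beq (Nat.mod c 8) 6 then
    gen6 (pr c 0) (pr c 1) (pr c 2) (pr c 3) (pr c 4) (Nat.mod (Nat.div (pr c 5) 8) 3)
      (tb (pr c 5) 0) (tb (pr c 5) 1) (tb (pr c 5) 2) (Nat.ble 24 (pr c 5))
  else gen7 (pr c 0) (pr c 1)

/-- validity of the parameters -/
def valid (c : ℕ) : Bool :=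
  bif Nat.beq (Nat.mod c 8) 1 then Nat.blt (pr c 0) 56 && Nat.blt (pr c 1) 16
  else bif Nat.beq (Nat.mod c 8) 3 then Nat.blt (pr c 0) 56 &&
    (Nat.beq (pr c 2) (pr c 3) || (Nat.blt (pr c 2) 5 && Nat.blt (pr c 3) 5 &&
      (xor (Cb (pr c 1) (pr c 2)) (Cb (pr c 1) (pr c 3)))))
  else bif Nat.beq (Nat.mod c 8) 5 then
    Nat.blt (pr c 0) 28 && Nat.blt (pr c 1) (pr c 2) && Nat.blt (pr c 2) (pr c 3) &&
      Nat.blt (pr c 3) (pr c 4) && Nat.blt (pr c 4) 6 &&
      (xor (xor (tb (pr c 5) 0) (tb (pr c 5) 1)) (xor (tb (pr c 5) 2) (tb (pr c 5) 3))) &&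
      (xor (xor (tb (pr c 5) 2) (tb (pr c 5) 3)) (xor (tb (pr c 5) 4) (tb (pr c 5) 5)))
  else bif Nat.beq (Nat.mod c 8) 6 then
    Nat.blt (pr c 0) 28 && Nat.blt (pr c 1) (pr c 2) && Nat.blt (pr c 2) (pr c 3) &&
      Nat.blt (pr c 3) 6
  else Nat.blt 1 (pr c 0) && Nat.blt (pr c 0) (pr c 1) && Nat.blt (pr c 1) 8

/-- the clause is satisfied -/
def Sat (W : Fin 8 → Fin 4 → ℝ) (l : List (ℕ × Bool)) : Prop := ∃ p ∈ l, val W p.1 = p.2

/-- The hypotheses. -/
structure Hyp (W : Fin 8 → Fin 4 → ℝ) : Prop where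
  ne : ∀ s : Fin 4 → Fin 8, Function.Injective s → (C1S.mat W s).det ≠ 0
  sc : C1S.StrictClique W
  so : ∀ i j : Fin 8, 2 ≤ i → i < j → 0 < (C1S.mat W ![0, 1, i, j]).det

theorem mat_det (W : Fin 8 → Fin 4 → ℝ) (s : Fin 4 → Fin 8) :
    (C1S.mat W s).det = D4 (W (s 0)) (W (s 1)) (W (s 2)) (W (s 3)) := by
  rw [D4_eq_det]
  congr 1
  ext r a
  fin_cases r <;> rfl

theorem dec_pos {x : ℝ} (hx : x ≠ 0) {b : Bool} (h : decide (0 < x) ≠ b) : 0 < sb b * x := by
  cases b with
  | false =>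
    simp only [ne_eq, decide_eq_false_iff_not, not_not] at h
    simpa [sb] using h
  | true =>
    simp only [ne_eq, decide_eq_true_eq, not_lt] at h
    have : x < 0 := lt_of_le_of_ne h hx
    simp only [sb, if_true]
    linarith

theorem bif_sb (x : ℝ) (s : Bool) :
    (bif s then decide (x < 0) else decide (0 < x)) = decide (0 < sb s * x) := by
  cases s with
  | false => simp [sb]
  | true => simp [sb]

theorem inj5 : ∀ b < 56, ∀ i < 5, ∀ j < 5, i ≠ j →
    dg (T5.getD b 0) i ≠ dg (T5.getD b 0) j := by decide +kernel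

theorem inj6 : ∀ a < 28, ∀ i < 6, ∀ j < 6, i ≠ j →
    dg (A6.getD a 0) i ≠ dg (A6.getD a 0) j := by decide +kernel

theorem dg_lt (B k : ℕ) : dg B k < 8 := Nat.mod_lt _ (by norm_num)

theorem ofNat_inj {a b : ℕ} (ha : a < 8) (hb : b < 8) (h : Fin.ofNat 8 a = Fin.ofNat 8 b) :
    a = b := by
  have := congrArg Fin.val h
  simp only [Fin.val_ofNat] at this
  rwa [Nat.mod_eq_of_lt ha, Nat.mod_eq_of_lt hb] at this

theorem skip_inj {k i j : ℕ} (h : skip k i = skip k j) : i = j := by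
  unfold skip at h
  cases h1 : Nat.blt i k <;> cases h2 : Nat.blt j k <;> rw [h1, h2] at h <;>
    simp only [cond_true, cond_false, Nat.succ_eq_add_one] at h
  · omega
  · have h3 : ¬ i < k := by
      intro h4
      rw [lt_blt h4] at h1
      cases h1
    have h4 : j < k := blt_lt h2
    omega
  · have h3 : ¬ j < k := by
      intro h4
      rw [lt_blt h4] at h2
      cases h2
    have h4 : i < k := blt_lt h1
    omega
  · exact h

theorem skip_lt' {k i n : ℕ} (hi : i < n) : skip k i < n + 1 := by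
  unfold skip
  cases Nat.blt i k <;> simp <;> omega

theorem XK_ne {W : Fin 8 → Fin 4 → ℝ} (h : Hyp W) {b k : ℕ} (hb : b < 56) (_hk : k < 5) :
    XK (vs W (T5.getD b 0)) k ≠ 0 := by
  have h1 := h.ne (fun i => Fin.ofNat 8 (dg (T5.getD b 0) (skip k i))) (by
    intro i j hij
    have h2 := ofNat_inj (dg_lt _ _) (dg_lt _ _) hij
    by_contra hne
    refine inj5 b hb (skip k i) (skip_lt' i.2) (skip k j) (skip_lt' j.2) (fun h3 => hne ?_) h2
    exact Fin.ext (skip_inj h3))
  rw [mat_det] at h1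
  exact h1

theorem XX_ne {W : Fin 8 → Fin 4 → ℝ} (h : Hyp W) {a k l : ℕ} (ha : a < 28) (_hkl : k < l)
    (_hl : l < 6) : XX (vs W (A6.getD a 0)) k l ≠ 0 := by
  have h1 := h.ne (fun i => Fin.ofNat 8 (dg (A6.getD a 0) (skip l (skip k i)))) (by
    intro i j hij
    have h2 := ofNat_inj (dg_lt _ _) (dg_lt _ _) hij
    by_contra hne
    refine inj6 a ha (skip l (skip k i)) (skip_lt' (skip_lt' i.2)) (skip l (skip k j))
      (skip_lt' (skip_lt' j.2)) (fun h3 => hne ?_) h2
    exact Fin.ext (skip_inj (skip_inj h3)))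
  rw [mat_det] at h1
  exact h1

theorem sat1 (W : Fin 8 → Fin 4 → ℝ) {b e : ℕ} (he : e < 16) : Sat W (gen1 b e) := by
  by_contra hcon
  unfold Sat gen1 at hcon
  push Not at hcon
  have h1 := hcon _ (by simp : (70 + 32 * b + 2 * e, false) ∈ _)
  have h2 := hcon _ (by simp : (70 + 32 * b + 2 * e + 1, false) ∈ _)
  simp only [ne_eq, Bool.not_eq_false] at h1 h2
  unfold val at h1 h2
  have e1 : ¬ (70 + 32 * b + 2 * e < 70) := by omega
  have e2 : ¬ (70 + 32 * b + 2 * e + 1 < 70) := by omega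
  have e3 : ¬ ((70 + 32 * b + 2 * e - 70) % 2 = 1) := by omega
  have e4 : (70 + 32 * b + 2 * e + 1 - 70) % 2 = 1 := by omega
  have e5 : (70 + 32 * b + 2 * e - 70) / 32 = b := by omega
  have e6 : (70 + 32 * b + 2 * e + 1 - 70) / 32 = b := by omega
  have e7 : 70 + 32 * b + 2 * e - 70 = 32 * b + 2 * e := by omega
  have e8 : 70 + 32 * b + 2 * e + 1 - 70 = 32 * b + 2 * e + 1 := by omega
  rw [if_neg e1, if_neg e3, e5, e7] at h1
  rw [if_neg e2, if_pos e4, e6, e8] at h2
  have h5 : ∀ k < 5, eb (32 * b + 2 * e + 1) k = eb (32 * b + 2 * e) k := by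
    intro k hk
    unfold eb
    interval_cases k
    · rfl
    · have : (32 * b + 2 * e + 1) / 2 ^ 1 % 2 = (32 * b + 2 * e) / 2 ^ 1 % 2 := by omega
      rw [this]
    · have : (32 * b + 2 * e + 1) / 2 ^ 2 % 2 = (32 * b + 2 * e) / 2 ^ 2 % 2 := by omega
      rw [this]
    · have : (32 * b + 2 * e + 1) / 2 ^ 3 % 2 = (32 * b + 2 * e) / 2 ^ 3 % 2 := by omega
      rw [this]
    · have : (32 * b + 2 * e + 1) / 2 ^ 4 % 2 = (32 * b + 2 * e) / 2 ^ 4 % 2 := by omega
      rw [this]
  rw [sigv_congr h5] at h2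
  have h3 := of_decide_eq_true h1
  have h4 := of_decide_eq_true h2
  linarith

/-- the coefficients of the relation of five vectors -/
def cf (v : ℕ → Fin 4 → ℝ) (k : Fin 5) : ℝ := sb (tb k 0) * XK v k

theorem sigv_cf (v : ℕ → Fin 4 → ℝ) (e : ℕ → Bool) : sigv v e = ∑ k : Fin 5, sb (e k) * cf v k := by
  rw [Fin.sum_univ_five]
  unfold sigv cf
  have h0 : sb (tb ((0 : Fin 5) : ℕ) 0) = 1 := sb_false
  have h1 : sb (tb ((1 : Fin 5) : ℕ) 0) = -1 := sb_true
  have h2 : sb (tb ((2 : Fin 5) : ℕ) 0) = 1 := sb_false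
  have h3 : sb (tb ((3 : Fin 5) : ℕ) 0) = -1 := sb_true
  have h4 : sb (tb ((4 : Fin 5) : ℕ) 0) = 1 := sb_false
  rw [h0, h1, h2, h3, h4]
  simp only [Fin.val_zero, Fin.val_one, Fin.val_two]
  have e3 : ((3 : Fin 5) : ℕ) = 3 := rfl
  have e4 : ((4 : Fin 5) : ℕ) = 4 := rfl
  rw [e3, e4]
  ring

theorem cf_rel (v : ℕ → Fin 4 → ℝ) (a : Fin 4) : ∑ k : Fin 5, cf v k * v k a = 0 := by
  rw [Fin.sum_univ_five]
  unfold cf
  have h0 : sb (tb ((0 : Fin 5) : ℕ) 0) = 1 := sb_false
  have h1 : sb (tb ((1 : Fin 5) : ℕ) 0) = -1 := sb_true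
  have h2 : sb (tb ((2 : Fin 5) : ℕ) 0) = 1 := sb_false
  have h3 : sb (tb ((3 : Fin 5) : ℕ) 0) = -1 := sb_true
  have h4 : sb (tb ((4 : Fin 5) : ℕ) 0) = 1 := sb_false
  rw [h0, h1, h2, h3, h4]
  have k0 : XK v ((0 : Fin 5) : ℕ) = D4 (v 1) (v 2) (v 3) (v 4) := rfl
  have k1 : XK v ((1 : Fin 5) : ℕ) = D4 (v 0) (v 2) (v 3) (v 4) := rfl
  have k2 : XK v ((2 : Fin 5) : ℕ) = D4 (v 0) (v 1) (v 3) (v 4) := rfl
  have k3 : XK v ((3 : Fin 5) : ℕ) = D4 (v 0) (v 1) (v 2) (v 4) := rfl
  have k4 : XK v ((4 : Fin 5) : ℕ) = D4 (v 0) (v 1) (v 2) (v 3) := rfl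
  rw [k0, k1, k2, k3, k4]
  have h := cramer5 (v 0) (v 1) (v 2) (v 3) (v 4) a
  have e0 : v ((0 : Fin 5) : ℕ) = v 0 := rfl
  have e1 : v ((1 : Fin 5) : ℕ) = v 1 := rfl
  have e2 : v ((2 : Fin 5) : ℕ) = v 2 := rfl
  have e3 : v ((3 : Fin 5) : ℕ) = v 3 := rfl
  have e4 : v ((4 : Fin 5) : ℕ) = v 4 := rfl
  rw [e0, e1, e2, e3, e4]
  linarith

theorem strict_comp {W : Fin 8 → Fin 4 → ℝ} (h : C1S.StrictClique W) {n : ℕ} (s : Fin n → Fin 8)
    (hs : Function.Injective s) : C1S.StrictClique (fun r => W (s r)) := by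
  refine ⟨fun i => h.1 (s i), fun i j hij => ?_⟩
  obtain ⟨f, h1, h2, h3⟩ := h.2 (s i) (s j) fun h => hij (hs h)
  exact ⟨f, h1, h2, fun k hki hkj => h3 (s k) (fun h => hki (hs h)) fun h => hkj (hs h)⟩

/-- triangle inequalities for the absolute values of a relation of five members -/
theorem tri {W : Fin 8 → Fin 4 → ℝ} (h : Hyp W) {b : ℕ} (hb : b < 56) {C : Fin 5 → Bool}
    (hC : ∀ k, 0 < sb (C k) * cf (vs W (T5.getD b 0)) k) :
    (∀ i j, C i ≠ C j → 2 * (|cf (vs W (T5.getD b 0)) i| + |cf (vs W (T5.getD b 0)) j|) <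
      ∑ k, |cf (vs W (T5.getD b 0)) k|) ∧
    ∀ i, 2 * |cf (vs W (T5.getD b 0)) i| < ∑ k, |cf (vs W (T5.getD b 0)) k| := by
  classical
  set v := vs W (T5.getD b 0) with hv
  set s : Fin 5 → Fin 8 := fun i => Fin.ofNat 8 (dg (T5.getD b 0) i) with hs
  have hsi : Function.Injective s := by
    intro i j hij
    have h2 := ofNat_inj (dg_lt _ _) (dg_lt _ _) hij
    by_contra hne
    exact inj5 b hb i i.2 j j.2 (fun h3 => hne (Fin.ext h3)) h2
  have hsc := strict_comp h.sc s hsi
  have hrel : ∀ a, ∑ k, cf v k * W (s k) a = 0 := cf_rel v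
  have hne : ∀ k, cf v k ≠ 0 := fun k h0 => by
    have := hC k
    rw [h0, mul_zero] at this
    exact lt_irrefl _ this
  have hsign : ∀ k, (C k = false → 0 < cf v k) ∧ (C k = true → cf v k < 0) := by
    intro k
    have := hC k
    constructor
    · intro hk
      rw [hk] at this
      simpa [sb] using this
    · intro hk
      rw [hk] at this
      simp only [sb, if_true] at this
      linarith
  have key : ∀ i j, C i = false → C j = true → 2 * (|cf v i| + |cf v j|) < ∑ k, |cf v k| := by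
    intro i j hi hj
    have hi' := (hsign i).1 hi
    have hj' := (hsign j).2 hj
    have hij : i ≠ j := fun h => by subst h; linarith
    have h1 := hsc.rel hrel hi' hj'
    have hji : j ∈ univ.erase i := Finset.mem_erase.2 ⟨Ne.symm hij, mem_univ j⟩
    rw [← Finset.add_sum_erase _ (fun k => |cf v k|) (mem_univ i),
      ← Finset.add_sum_erase _ (fun k => |cf v k|) hji]
    rw [abs_of_pos hi', abs_of_neg hj']
    linarith
  have key2 : ∀ i j, C i ≠ C j → 2 * (|cf v i| + |cf v j|) < ∑ k, |cf v k| := by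
    intro i j hij
    cases hi : C i with
    | false =>
      cases hj : C j with
      | false => rw [hi, hj] at hij; exact absurd rfl hij
      | true => exact key i j hi hj
    | true =>
      cases hj : C j with
      | false => have := key j i hj hi; linarith
      | true => rw [hi, hj] at hij; exact absurd rfl hij
  refine ⟨key2, fun i => ?_⟩
  by_cases hall : ∀ j, C j = C i
  · exfalso
    have h3 := hrel (Fin.last 3)
    cases hi : C i with
    | false =>
      have : 0 < ∑ k, cf v k * W (s k) (Fin.last 3) := by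
        refine Finset.sum_pos (fun k _ => mul_pos ((hsign k).1 ?_) (hsc.1 k)) ⟨0, mem_univ _⟩
        rw [hall k, hi]
      linarith
    | true =>
      have : 0 < ∑ k, -(cf v k * W (s k) (Fin.last 3)) := by
        refine Finset.sum_pos (fun k _ => ?_) ⟨0, mem_univ _⟩
        have h4 := (hsign k).2 (by rw [hall k, hi])
        have h5 : 0 < W (s k) (Fin.last 3) := hsc.1 k
        nlinarith
      rw [Finset.sum_neg_distrib] at this
      linarith
  · push Not at hall
    obtain ⟨j, hj⟩ := hall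
    have h4 := key2 i j (Ne.symm hj)
    have h5 : 0 < |cf v j| := abs_pos.2 (hne j)
    linarith

theorem Cb_eq (G : ℕ) (k : Fin 5) (v : ℕ → Fin 4 → ℝ) (h : 0 < sb (tb G k) * XK v k) :
    0 < sb (Cb G k) * cf v k := by
  unfold Cb cf
  rw [sb_xor]
  have : sb (tb G ↑k) * sb (tb ↑k 0) * (sb (tb ↑k 0) * XK v ↑k) =
      sb (tb G ↑k) * XK v ↑k * (sb (tb ↑k 0) * sb (tb ↑k 0)) := by ring
  rw [this, sb_mul_self, mul_one]
  exact h

/-- the sum with the members `i`, `j` positive -/
theorem mem_sum {t : Fin 5 → ℝ} (ht : ∀ k, 0 < t k) {i j : ℕ}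
    (h : i = j ∨ i < 5 ∧ j < 5) (h2 : ∀ i' j' : Fin 5, (i' : ℕ) = i → (j' : ℕ) = j → i ≠ j →
      2 * (t i' + t j') < ∑ k, t k) (h1 : ∀ i', 2 * t i' < ∑ k, t k) :
    ∑ k : Fin 5, sb (!(mem i j k)) * t k < 0 := by
  have hS := Fin.sum_univ_five t
  have ht0 := ht 0
  have ht1 := ht 1
  have ht2 := ht 2
  have ht3 := ht 3
  have ht4 := ht 4
  have e3 : ((3 : Fin 5) : ℕ) = 3 := rfl
  have e4 : ((4 : Fin 5) : ℕ) = 4 := rfl
  by_cases hij : i = j
  · subst hij
    by_cases hi : i < 5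
    · have hh := h1 ⟨i, hi⟩
      rw [hS] at hh
      rw [Fin.sum_univ_five]
      interval_cases i <;>
        simp only [mem, sb, Fin.val_zero, Fin.val_one, Fin.val_two, e3, e4] <;>
        norm_num [Nat.beq] <;> norm_num at hh <;> first | linarith | (simp at hh; linarith)
    · have hm : ∀ k : Fin 5, mem i i k = false := by
        intro k
        unfold mem
        have : Nat.beq k i = false := by
          have hne : (k : ℕ) ≠ i := by have := k.2; omega
          cases hb : Nat.beq k i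
          · rfl
          · exact absurd (Nat.eq_of_beq_eq_true hb) hne
        rw [this]; rfl
      simp only [hm, Bool.not_false, sb, if_true]
      rw [Fin.sum_univ_five]
      linarith
  · rcases h with h | ⟨hi, hj⟩
    · exact absurd h hij
    have hh := h2 ⟨i, hi⟩ ⟨j, hj⟩ rfl rfl hij
    rw [hS] at hh
    rw [Fin.sum_univ_five]
    interval_cases i <;> interval_cases j <;>
      first
      | exact absurd rfl hij
      | (simp only [mem, sb, Fin.val_zero, Fin.val_one, Fin.val_two, e3, e4]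
         norm_num [Nat.beq]
         norm_num at hh
         first | linarith | (simp at hh; linarith))

theorem sat3 {W : Fin 8 → Fin 4 → ℝ} (h : Hyp W) {b G i j : ℕ} {f : Bool} (hb : b < 56)
    (hv : i = j ∨ i < 5 ∧ j < 5 ∧ Cb G i ≠ Cb G j) : Sat W (gen3 b G i j f) := by
  by_contra hcon
  unfold Sat gen3 at hcon
  push Not at hcon
  have hx : ∀ k < 5, 0 < sb (tb G k) * XK (vs W (T5.getD b 0)) k := by
    intro k hk
    have h1 := hcon (xkey (T5.getD b 0) k, tb G k) (by interval_cases k <;> simp)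
    simp only at h1
    rw [val_xkey W hb hk] at h1
    exact dec_pos (XK_ne h hb hk) h1
  have hl := hcon (skey b (eT G i j f) (!f), true) (by simp)
  simp only at hl
  rw [val_skey, bif_sb] at hl
  set v := vs W (T5.getD b 0) with hvv
  have hC : ∀ k : Fin 5, 0 < sb (Cb G k) * cf v k := fun k => Cb_eq G k v (hx k k.2)
  obtain ⟨t1, t2⟩ := tri h hb (C := fun k => Cb G k) hC
  have hne : ∀ k, 0 < |cf v k| := fun k => by
    apply abs_pos.2
    intro h0
    have := hC k
    rw [h0, mul_zero] at this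
    exact lt_irrefl _ this
  have habs : ∀ k : Fin 5, sb (Cb G k) * cf v k = |cf v k| := by
    intro k
    have h1 := hC k
    cases hb' : Cb G k with
    | false =>
      rw [hb'] at h1
      simp only [sb] at h1 ⊢
      norm_num at h1 ⊢
      exact (abs_of_pos h1).symm
    | true =>
      rw [hb'] at h1
      simp only [sb, if_true] at h1 ⊢
      rw [abs_of_neg (by linarith)]
      ring
  have hs := mem_sum (t := fun k => |cf v k|) hne (i := i) (j := j)
    (by rcases hv with h1 | h1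
        · exact Or.inl h1
        · exact Or.inr ⟨h1.1, h1.2.1⟩)
    (fun i' j' hi' hj' hij => by
      rcases hv with h1 | h1
      · exact absurd h1 hij
      · refine t1 i' j' ?_
        simp only [hi', hj']
        exact h1.2.2) t2
  have hsig : sigv v (eT G i j f) = sb f * ∑ k : Fin 5, sb (!(mem i j k)) * |cf v k| := by
    rw [sigv_cf, Finset.mul_sum]
    refine Finset.sum_congr rfl fun k _ => ?_
    unfold eT
    rw [sb_xor, sb_xor, ← habs k]
    ring
  have hpos : 0 < sb (!f) * sigv v (eT G i j f) := by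
    rw [hsig, sb_not]
    have : -sb f * (sb f * ∑ k : Fin 5, sb (!(mem i j k)) * |cf v k|) =
        -(sb f * sb f) * ∑ k : Fin 5, sb (!(mem i j k)) * |cf v k| := by ring
    rw [this, sb_mul_self]
    linarith
  exact hl (decide_eq_true hpos)

theorem sat5 {W : Fin 8 → Fin 4 → ℝ} (h : Hyp W) {a p q r s g : ℕ} (ha : a < 28) (hpq : p < q)
    (hqr : q < r) (hrs : r < s) (hs : s < 6) (h1 : xor (tb g 0) (tb g 1) ≠ xor (tb g 2) (tb g 3))
    (h2 : xor (tb g 2) (tb g 3) ≠ xor (tb g 4) (tb g 5)) : Sat W (gen5 a p q r s g) := by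
  by_contra hcon
  unfold Sat gen5 at hcon
  push Not at hcon
  set v := vs W (A6.getD a 0) with hv
  have hx : ∀ k l, k < l → l < 6 → ∀ b, (val W (xkey2 (A6.getD a 0) k l) ≠ b) →
      0 < sb b * XX v k l := by
    intro k l hkl hl b hb
    rw [val_xkey2 W ha hkl hl] at hb
    exact dec_pos (XX_ne h ha hkl hl) hb
  have x0 := hx p q hpq (by omega) _ (hcon (xkey2 (A6.getD a 0) p q, tb g 0) (by simp))
  have x1 := hx r s hrs hs _ (hcon (xkey2 (A6.getD a 0) r s, tb g 1) (by simp))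
  have x2 := hx p r (by omega) (by omega) _ (hcon (xkey2 (A6.getD a 0) p r, tb g 2) (by simp))
  have x3 := hx q s (by omega) hs _ (hcon (xkey2 (A6.getD a 0) q s, tb g 3) (by simp))
  have x4 := hx p s (by omega) hs _ (hcon (xkey2 (A6.getD a 0) p s, tb g 4) (by simp))
  have x5 := hx q r hqr (by omega) _ (hcon (xkey2 (A6.getD a 0) q r, tb g 5) (by simp))
  have hgp := GPall v s hs r hrs q hqr p hpq
  have y0 : 0 < sb (xor (tb g 0) (tb g 1)) * (XX v p q * XX v r s) := by
    rw [sb_xor]; nlinarith [mul_pos x0 x1]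
  have y1 : 0 < sb (xor (tb g 2) (tb g 3)) * (XX v p r * XX v q s) := by
    rw [sb_xor]; nlinarith [mul_pos x2 x3]
  have y2 : 0 < sb (xor (tb g 4) (tb g 5)) * (XX v p s * XX v q r) := by
    rw [sb_xor]; nlinarith [mul_pos x4 x5]
  generalize xor (tb g 0) (tb g 1) = b0 at *
  generalize xor (tb g 2) (tb g 3) = b1 at *
  generalize xor (tb g 4) (tb g 5) = b2 at *
  cases b0 <;> cases b1 <;> cases b2 <;> simp [sb] at h1 h2 y0 y1 y2 <;> linarith

theorem sat6 {W : Fin 8 → Fin 4 → ℝ} (h : Hyp W) {a p q r E i : ℕ} {s1 s2 s3 sg : Bool}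
    (ha : a < 28) (hpq : p < q) (hqr : q < r) (hr : r < 6) (hi : i < 3) :
    Sat W (gen6 a p q r E i s1 s2 s3 sg) := by
  by_contra hcon
  unfold Sat gen6 at hcon
  push Not at hcon
  set v := vs W (A6.getD a 0) with hv
  have hx : ∀ k l, k < l → l < 6 → ∀ b, (val W (xkey2 (A6.getD a 0) k l) ≠ b) →
      0 < sb b * XX v k l := by
    intro k l hkl hl b hb
    rw [val_xkey2 W ha hkl hl] at hb
    exact dec_pos (XX_ne h ha hkl hl) hb
  have x1 := hx q r hqr hr _ (hcon (xkey2 (A6.getD a 0) q r, s1) (by simp))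
  have x2 := hx p r (by omega) hr _ (hcon (xkey2 (A6.getD a 0) p r, s2) (by simp))
  have x3 := hx p q hpq (by omega) _ (hcon (xkey2 (A6.getD a 0) p q, s3) (by simp))
  have hmx := MXall v (tb E) r hr q hqr p hpq
  -- the meaning of the three literals
  have hlit : ∀ p' < 6, ∀ first s : Bool, (val W (lit6 a E p' first s sg).1 ≠
      (lit6 a E p' first s sg).2) → 0 ≤ sb (xor sg s) * SS v (tb E) p' ∧
        (first = true → 0 < sb (xor sg s) * SS v (tb E) p') := by
    intro p' hp' first s hne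
    unfold lit6 at hne
    cases first with
    | true =>
      simp only [cond_true] at hne
      rw [val_SS W ha hp', bif_sb] at hne
      have h1 : 0 < sb (xor sg s) * SS v (tb E) p' := by
        by_contra hc
        exact hne (decide_eq_false hc)
      exact ⟨h1.le, fun _ => h1⟩
    | false =>
      simp only [cond_false] at hne
      rw [val_SS W ha hp', bif_sb] at hne
      have h1 : ¬ 0 < sb (xor (!sg) s) * SS v (tb E) p' := fun hc => hne (decide_eq_true hc)
      have h2 : sb (xor (!sg) s) = - sb (xor sg s) := by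
        rw [sb_xor, sb_not, sb_xor]; ring
      rw [h2] at h1
      refine ⟨by linarith, fun hf => by cases hf⟩
  have l1 := hlit p (by omega) _ _ (hcon (lit6 a E p (Nat.beq i 0) s1 sg) (by simp))
  have l2 := hlit q (by omega) _ _ (hcon (lit6 a E q (Nat.beq i 1) (!s2) sg) (by simp))
  have l3 := hlit r hr _ _ (hcon (lit6 a E r (Nat.beq i 2) s3 sg) (by simp))
  have t1 : sb sg * (SS v (tb E) p * XX v q r) =
      (sb (xor sg s1) * SS v (tb E) p) * (sb s1 * XX v q r) := by
    rw [sb_xor]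
    linear_combination (-(sb sg * (SS v (tb E) p * XX v q r))) * sb_mul_self s1
  have t2 : sb sg * (-(SS v (tb E) q * XX v p r)) =
      (sb (xor sg (!s2)) * SS v (tb E) q) * (sb s2 * XX v p r) := by
    rw [sb_xor, sb_not]
    linear_combination (sb sg * (SS v (tb E) q * XX v p r)) * sb_mul_self s2
  have t3 : sb sg * (SS v (tb E) r * XX v p q) =
      (sb (xor sg s3) * SS v (tb E) r) * (sb s3 * XX v p q) := by
    rw [sb_xor]
    linear_combination (-(sb sg * (SS v (tb E) r * XX v p q))) * sb_mul_self s3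
  have hz : sb sg * (SS v (tb E) p * XX v q r) + sb sg * (-(SS v (tb E) q * XX v p r)) +
      sb sg * (SS v (tb E) r * XX v p q) = 0 := by
    linear_combination (sb sg) * hmx
  rw [t1, t2, t3] at hz
  have n1 := mul_nonneg l1.1 x1.le
  have n2 := mul_nonneg l2.1 x2.le
  have n3 := mul_nonneg l3.1 x3.le
  interval_cases i
  · have := mul_pos (l1.2 rfl) x1
    linarith
  · have := mul_pos (l2.2 rfl) x2
    linarith
  · have := mul_pos (l3.2 rfl) x3
    linarith

theorem T4_r4 : ∀ j < 8, ∀ i < j, 2 ≤ i → r4 0 1 i j < 70 ∧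
    dg (T4.getD (r4 0 1 i j) 0) 0 = 0 ∧ dg (T4.getD (r4 0 1 i j) 0) 1 = 1 ∧
    dg (T4.getD (r4 0 1 i j) 0) 2 = i ∧ dg (T4.getD (r4 0 1 i j) 0) 3 = j := by
  decide +kernel

theorem sat7 {W : Fin 8 → Fin 4 → ℝ} (h : Hyp W) {i j : ℕ} (hi : 2 ≤ i) (hij : i < j)
    (hj : j < 8) : Sat W (gen7 i j) := by
  refine ⟨(r4 0 1 i j, true), by simp [gen7], ?_⟩
  obtain ⟨h1, h2, h3, h4, h5⟩ := T4_r4 j hj i hij hi
  simp only
  unfold val
  rw [if_pos h1]
  apply decide_eq_true
  unfold XB vs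
  rw [h2, h3, h4, h5]
  have h6 := h.so (Fin.ofNat 8 i) (Fin.ofNat 8 j) (by
      rw [Fin.le_def]
      simp only [Fin.val_ofNat, Nat.mod_eq_of_lt (show i < 8 by omega)]
      exact hi) (by
      rw [Fin.lt_def]
      simp only [Fin.val_ofNat, Nat.mod_eq_of_lt (show i < 8 by omega), Nat.mod_eq_of_lt hj]
      exact hij)
  rw [mat_det] at h6
  exact h6

theorem band {a b : Bool} (h : (a && b) = true) : a = true ∧ b = true := by
  cases a <;> cases b <;> simp at h ⊢

/-- **Soundness of the clauses.** -/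
theorem gen_sound {W : Fin 8 → Fin 4 → ℝ} (h : Hyp W) (c : ℕ) (hc : valid c = true) :
    Sat W (gen c) := by
  unfold valid at hc
  unfold gen
  cases h1 : Nat.beq (Nat.mod c 8) 1 with
  | true =>
    rw [h1, cond_true] at hc
    rw [cond_true]
    have := band hc
    exact sat1 W (blt_lt this.2)
  | false =>
  rw [h1, cond_false] at hc
  rw [cond_false]
  cases h3 : Nat.beq (Nat.mod c 8) 3 with
  | true =>
    rw [h3, cond_true] at hc
    rw [cond_true]
    have h4 := band hc
    refine sat3 h (blt_lt h4.1) ?_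
    have h5 := h4.2
    rw [Bool.or_eq_true] at h5
    rcases h5 with h5 | h5
    · exact Or.inl (Nat.eq_of_beq_eq_true h5)
    · have h6 := band h5
      have h7 := band h6.1
      refine Or.inr ⟨blt_lt h7.1, blt_lt h7.2, fun h8 => ?_⟩
      rw [h8, Bool.xor_self] at h6
      cases h6.2
  | false =>
  rw [h3, cond_false] at hc
  rw [cond_false]
  cases h5 : Nat.beq (Nat.mod c 8) 5 with
  | true =>
    rw [h5, cond_true] at hc
    rw [cond_true]
    have g1 := band hc
    have g2 := band g1.1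
    have g3 := band g2.1
    have g4 := band g3.1
    have g5 := band g4.1
    have g6 := band g5.1
    refine sat5 h (blt_lt g6.1) (blt_lt g6.2) (blt_lt g5.2) (blt_lt g4.2)
      (blt_lt g3.2) (fun h8 => ?_) (fun h8 => ?_)
    · rw [h8, Bool.xor_self] at g2
      cases g2.2
    · rw [h8, Bool.xor_self] at g1
      cases g1.2
  | false =>
  rw [h5, cond_false] at hc
  rw [cond_false]
  cases h6 : Nat.beq (Nat.mod c 8) 6 with
  | true =>
    rw [h6, cond_true] at hc
    rw [cond_true]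
    have g1 := band hc
    have g2 := band g1.1
    have g3 := band g2.1
    exact sat6 h (blt_lt g3.1) (blt_lt g3.2) (blt_lt g2.2) (blt_lt g1.2)
      (Nat.mod_lt _ (by norm_num))
  | false =>
    rw [h6, cond_false] at hc
    rw [cond_false]
    have g1 := band hc
    have g2 := band g1.1
    exact sat7 h (blt_lt g2.1) (blt_lt g2.2) (blt_lt g1.2)

end N8S
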