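import Pool.Agent.N8S.Tab

/-! # Input clauses -/

set_option autoImplicit false

namespace N8S

/-- codes -/
def ci0 : List ℕ := [
6145, 6357507, 1025, 6358019, 7169, 6291459, 6325763, 513,
6325251, 4609, 8486915, 6657, 6358531, 1537, 6356995, 3585,
4194819, 8488451, 7681, 6292483, 6153, 8421387, 6357515, 1033,
6358027, 3081, 4227083, 4260875, 4195851, 7177, 6291467, 6390283,
6325771, 521, 6325259, 4617, 8486923, 4227595, 2569, 2130955,
523, 2098699, 6665, 8389131, 6358539, 1545, 6357003, 8421899,
5641, 2097163, 1035, 2130443, 3593, 4259851, 4194827, 8488459,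
7689, 6292491, 6193, 6357555, 1073, 6358067, 3121, 4227123,
4260915, 4195891, 7217, 6291507, 6325811, 561, 6325299, 4657,
8486963, 4227635, 4261427, 6705, 8389171, 6358579, 1585, 6357043,
8421939, 5681, 2097203, 3633, 4194867, 8488499, 7729, 6292531,
8390315, 3241, 4227243, 4196011, 4777, 4227755, 2729, 2131115,
2098859, 1705, 8422059, 5801, 2097323, 1195, 3753, 4194987,
6161, 8421395, 8520723, 6357523, 8390163, 1041, 6358035, 3089,
4227091, 8487443, 7185, 6291475, 6325779, 529, 6325267, 4625,
8486931, 4227603, 2577, 2130963, 6673, 8389139, 6358547, 1553,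
6357011, 8421907, 2097171, 3601, 4194835, 8488467, 7697, 6292499,
8421435, 6357563, 8390203, 1081, 6358075, 3129, 4227131, 8487483,
4195899, 7225, 6291515, 6325819, 569, 6325307, 4665, 8486971,
4227643, 2617, 2098747, 6713, 8389179, 6358587, 1593, 6357051,
8421947, 4194875, 8488507, 7737, 6292539, 8421555, 3249, 4227251,
4196019, 7345, 6291635, 4785, 8487091, 4227763, 6833, 8422067,
5809, 2097331, 1203, 3761, 4194995, 6233, 8421467, 6357595,
8390235, 1113, 6358107, 3161, 4227163, 8487515, 4195931, 7257,
6291547, 6325851, 601, 6325339, 4697, 8487003, 2649, 2098779,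
6745, 8389211, 6358619, 1625, 6357083, 8421979, 5721, 2097243,
1115, 3673, 4259931, 4194907, 8488539, 7769, 6292571, 6353,
8421587, 8390355, 5329, 211, 4227283, 4196051, 7377, 6291667,
4817, 4227795, 2769, 2131155, 2098899, 6865, 8389331, 1745,
6357203, 8422099, 8521427, 5841, 2097363, 1235, 3793, 4195027,
6433, 8421667, 8520995, 8390435, 2849, 2131235, 2098979, 6945,
8389411, 1825, 8422179, 5921, 1315, 4121, 8487963, 6169,
6357531, 1049, 6358043, 3097, 4227099, 4260891, 8487451, 4195867,
7193, 6291483, 6390299, 6325787, 537, 6325275, 4633, 8486939,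
4227611, 2585, 2130971, 539, 2098715, 6681, 8389147, 6358555,
1561, 6357019, 8421915, 8521243, 5657, 2097179, 1051, 2130459,
3609, 4194843, 8488475, 7705, 6292507, 4161, 8488003, 6209,
6357571, 1089, 6358083, 3137, 4227139, 8487491, 4195907, 7233,
6291523, 6325827, 577, 6325315, 4673, 8486979, 4227651, 2625,
2098755, 6721, 8389187, 6358595, 1601, 6357059, 5697, 2097219,
2130499, 3649, 4194883, 8488515, 7745, 6292547, 4281, 8488123,
6357691, 3257, 4227259, 8487611, 4196027, 7353, 6291643, 6325947,
697, 6325435, 4793, 8487099, 4227771, 6841, 8389307, 6358715,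
1721, 6357179, 8422075, 5817, 1211, 3769, 4195003, 8488635,
7865, 6292667, 4193, 8488035, 6241, 8421475, 6357603, 8390243,
1121, 6358115, 5217, 2131555, 3169, 4227171, 4260963, 8487523,
4195939, 7265, 6291555, 6390371, 6325859, 609, 6325347, 4705,
8487011, 4227683, 2657, 2131043, 611, 2098787, 6753, 8389219,
6358627, 1633, 6357091, 8421987, 5729, 2097251, 1123, 2130531,
3681, 4194915, 8488547, 7777, 6292579, 4313, 8488155, 6361,
8421595, 8520923, 6357723, 8390363, 3289, 4227291, 4261083, 8487643,
4196059, 7385, 6291675, 6325979, 729, 6325467, 4825, 8487131,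
4227803, 4261595, 2777, 2131163, 2098907, 6873, 8519899, 8389339,
6358747, 1753, 6357211, 8422107, 8521435, 5849]

theorem i0 : inp tt ci0 0 = true := by decide +kernel

theorem i0_len : ci0.length = 430 := by decide +kernel

end N8S
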