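import Pool.Agent.C1S.Pert
import Pool.Agent.BS9.Det

/-! MP_c1e66d_co: sorting the members of a light configuration in general position
around an edge of the hull. -/

set_option autoImplicit false

namespace N8S

open Finset Filter Topology Matrix

theorem sorted_func {n : ℕ} (W : Fin n → Fin 4 → ℝ) (t : Fin 4 → Fin n)
    (ht : (C1S.mat W t).det ≠ 0) (v : Fin 4 → ℝ) :
    ∃ h : Fin 4 → ℝ, ∀ r, C1S.dot h (W (t r)) = v r := by
  refine ⟨(C1S.mat W t)⁻¹ *ᵥ v, fun r => ?_⟩
  have h1 : (C1S.mat W t) *ᵥ ((C1S.mat W t)⁻¹ *ᵥ v) = v := by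
    rw [Matrix.mulVec_mulVec, Matrix.mul_nonsing_inv _ (isUnit_iff_ne_zero.2 ht),
      Matrix.one_mulVec]
  have h2 := congrFun h1 r
  rw [← h2]
  simp only [C1S.dot, Matrix.mulVec, dotProduct, C1S.mat, Matrix.of_apply]
  exact Finset.sum_congr rfl fun a _ => mul_comm _ _

theorem sorted_zero {n : ℕ} (W : Fin n → Fin 4 → ℝ) (t : Fin 4 → Fin n)
    (ht : (C1S.mat W t).det ≠ 0) (g : Fin 4 → ℝ) (hg : ∀ r, C1S.dot g (W (t r)) = 0) :
    g = 0 := by
  apply Matrix.eq_zero_of_mulVec_eq_zero ht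
  funext r
  have := hg r
  simp only [C1S.dot] at this
  simp only [Matrix.mulVec, dotProduct, C1S.mat, Matrix.of_apply, Pi.zero_apply]
  rw [← this]
  exact Finset.sum_congr rfl fun a _ => mul_comm _ _

theorem sorted_dot_add (g h w : Fin 4 → ℝ) (τ : ℝ) :
    C1S.dot (fun a => g a + τ * h a) w = C1S.dot g w + τ * C1S.dot h w := by
  simp only [C1S.dot, Finset.mul_sum, ← Finset.sum_add_distrib]
  exact Finset.sum_congr rfl fun a _ => by ring

theorem sorted_rot {n : ℕ} (W : Fin n → Fin 4 → ℝ) (g h : Fin 4 → ℝ)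
    (hg : ∀ i, 0 ≤ C1S.dot g (W i)) (hh : ∃ i, C1S.dot h (W i) < 0) :
    ∃ τ : ℝ, 0 ≤ τ ∧ (∀ j, 0 ≤ C1S.dot g (W j) + τ * C1S.dot h (W j)) ∧
      ∃ i, C1S.dot h (W i) < 0 ∧ C1S.dot g (W i) + τ * C1S.dot h (W i) = 0 := by
  classical
  obtain ⟨i0, hi0⟩ := hh
  obtain ⟨i, hi, hmin⟩ := Finset.exists_min_image
    (Finset.univ.filter fun i => C1S.dot h (W i) < 0)
    (fun i => C1S.dot g (W i) / (- C1S.dot h (W i))) ⟨i0, by simp [hi0]⟩
  simp only [Finset.mem_filter, Finset.mem_univ, true_and] at hi hmin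
  have hτ0 : 0 ≤ C1S.dot g (W i) / (- C1S.dot h (W i)) :=
    div_nonneg (hg i) (by linarith)
  refine ⟨C1S.dot g (W i) / (- C1S.dot h (W i)), hτ0, fun j => ?_, i, hi, ?_⟩
  · by_cases hj : C1S.dot h (W j) < 0
    · have h1 := hmin j hj
      have h2 : 0 < - C1S.dot h (W j) := by linarith
      rw [le_div_iff₀ h2] at h1
      linarith
    · have h3 : 0 ≤ C1S.dot h (W j) := not_lt.1 hj
      have := mul_nonneg hτ0 h3
      linarith [hg j]
  · have hi0 : C1S.dot h (W i) ≠ 0 := hi.ne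
    field_simp
    ring

/-- one more zero -/
theorem sorted_step {n : ℕ} (W : Fin n → Fin 4 → ℝ)
    (hne : ∀ s : Fin 4 → Fin n, Function.Injective s → (C1S.mat W s).det ≠ 0)
    (g : Fin 4 → ℝ) (hg : ∀ i, 0 ≤ C1S.dot g (W i)) (t : Fin 4 → Fin n)
    (ht : Function.Injective t) (hp : 0 < C1S.dot g (W (t 0))) :
    ∃ g' : Fin 4 → ℝ, (∀ i, 0 ≤ C1S.dot g' (W i)) ∧ 0 < C1S.dot g' (W (t 0)) ∧
      (C1S.dot g (W (t 2)) = 0 → C1S.dot g' (W (t 2)) = 0) ∧
      (C1S.dot g (W (t 3)) = 0 → C1S.dot g' (W (t 3)) = 0) ∧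
      ∃ a, a ≠ t 0 ∧ a ≠ t 2 ∧ a ≠ t 3 ∧ C1S.dot g' (W a) = 0 := by
  obtain ⟨h, hh⟩ := sorted_func W t (hne t ht) ![1, -1, 0, 0]
  have h0 : C1S.dot h (W (t 0)) = 1 := by simpa using hh 0
  have h1 : C1S.dot h (W (t 1)) = -1 := by simpa using hh 1
  have h2 : C1S.dot h (W (t 2)) = 0 := by simpa using hh 2
  have h3 : C1S.dot h (W (t 3)) = 0 := by simpa using hh 3
  obtain ⟨τ, hτ, hall, a, ha, ha0⟩ := sorted_rot W g h hg ⟨t 1, by rw [h1]; norm_num⟩
  refine ⟨fun a => g a + τ * h a, fun i => ?_, ?_, fun hz => ?_, fun hz => ?_, a, ?_, ?_, ?_, ?_⟩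
  · rw [sorted_dot_add]; exact hall i
  · rw [sorted_dot_add, h0]; linarith
  · rw [sorted_dot_add, h2, hz]; simp
  · rw [sorted_dot_add, h3, hz]; simp
  · rintro rfl; rw [h0] at ha; norm_num at ha
  · rintro rfl; rw [h2] at ha; exact lt_irrefl _ ha
  · rintro rfl; rw [h3] at ha; exact lt_irrefl _ ha
  · rw [sorted_dot_add]; exact ha0

theorem sorted_other {m : ℕ} (a b c : Fin (m + 4)) : ∃ d, d ≠ a ∧ d ≠ b ∧ d ≠ c := by
  classical
  have hc : (({a, b, c} : Finset (Fin (m + 4)))).card < (Finset.univ : Finset (Fin (m + 4))).card := by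
    have h3 : (({a, b, c} : Finset (Fin (m + 4)))).card ≤ 3 := Finset.card_le_three
    rw [Finset.card_univ, Fintype.card_fin]
    omega
  obtain ⟨d, -, hd⟩ := Finset.exists_mem_notMem_of_card_lt_card hc
  simp only [Finset.mem_insert, Finset.mem_singleton, not_or] at hd
  exact ⟨d, hd.1, hd.2.1, hd.2.2⟩

theorem sorted_inj {n : ℕ} {a b c d : Fin n} (hab : a ≠ b) (hac : a ≠ c) (had : a ≠ d)
    (hbc : b ≠ c) (hbd : b ≠ d) (hcd : c ≠ d) : Function.Injective ![a, b, c, d] := by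
  intro i j hij
  fin_cases i <;> fin_cases j <;> simp_all

/-- an edge of the hull: a functional vanishing at `a`, `b`, positive at all other members -/
theorem sorted_edge {m : ℕ} (W : Fin (m + 4) → Fin 4 → ℝ) (h3 : ∀ i, 0 < W i 3)
    (hne : ∀ s : Fin 4 → Fin (m + 4), Function.Injective s → (C1S.mat W s).det ≠ 0) :
    ∃ (a b : Fin (m + 4)) (X : Fin 4 → ℝ), a ≠ b ∧ C1S.dot X (W a) = 0 ∧
      C1S.dot X (W b) = 0 ∧ ∀ d, d ≠ a → d ≠ b → 0 < C1S.dot X (W d) := by
  -- start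
  set g : Fin 4 → ℝ := ![0, 0, 0, 1] with hgdef
  have hgv : ∀ i, C1S.dot g (W i) = W i 3 := by
    intro i
    simp [C1S.dot, hgdef, Fin.sum_univ_four]
  have hg : ∀ i, 0 ≤ C1S.dot g (W i) := fun i => by rw [hgv]; exact (h3 i).le
  -- first zero
  obtain ⟨p, -⟩ : ∃ p : Fin (m + 4), True := ⟨0, trivial⟩
  obtain ⟨q1, hq1, -, -⟩ := sorted_other p p p
  obtain ⟨x1, hx1, hx2, -⟩ := sorted_other p q1 q1
  obtain ⟨y1, hy1, hy2, hy3⟩ := sorted_other p q1 x1
  obtain ⟨g1, hg1, hg1p, -, -, a, hap, -, -, hga⟩ := sorted_step W hne g hg ![p, q1, x1, y1]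
    (sorted_inj hq1.symm hx1.symm hy1.symm hx2.symm hy2.symm hy3.symm)
    (by simpa [hgv] using h3 p)
  simp only [Matrix.cons_val_zero] at hg1p hap
  -- second zero
  obtain ⟨q2, hq21, hq22, -⟩ := sorted_other p a a
  obtain ⟨y2, hy21, hy22, hy23⟩ := sorted_other p a q2
  obtain ⟨g2, hg2, hg2p, hg2a, -, b, hbp, hba, -, hgb⟩ := sorted_step W hne g1 hg1 ![p, q2, a, y2]
    (sorted_inj hq21.symm hap.symm hy21.symm hq22 hy23.symm hy22.symm)
    (by simpa using hg1p)
  simp at hg2p hg2a hbp hba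
  have hg2a' := hg2a hga
  -- third zero
  obtain ⟨q3, hq31, hq32, hq33⟩ := sorted_other p a b
  obtain ⟨g3, hg3, hg3p, hg3a, hg3b, c, hcp, hca, hcb, hgc⟩ := sorted_step W hne g2 hg2
    ![p, q3, a, b]
    (sorted_inj hq31.symm hap.symm (Ne.symm hbp) hq32 hq33 (Ne.symm hba))
    (by simpa using hg2p)
  simp at hg3p hg3a hg3b hcp hca hcb
  have hg3a' := hg3a hg2a'
  have hg3b' := hg3b hgb
  -- the others are positive
  have hpos : ∀ d, d ≠ a → d ≠ b → d ≠ c → 0 < C1S.dot g3 (W d) := by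
    intro d hda hdb hdc
    rcases (hg3 d).lt_or_eq with h | h
    · exact h
    · exfalso
      have hz : g3 = 0 := by
        apply sorted_zero W ![a, b, c, d] (hne _ (sorted_inj (Ne.symm hba) (Ne.symm hca)
          hda.symm (Ne.symm hcb) hdb.symm hdc.symm)) g3
        intro r
        fin_cases r
        · simpa using hg3a'
        · simpa using hg3b'
        · simpa using hgc
        · simpa using h.symm
      rw [hz] at hg3p
      simp [C1S.dot] at hg3p
  -- a functional with h a = h b = 0, h c = 1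
  obtain ⟨h, hh⟩ := sorted_func W ![p, c, a, b] (hne _ (sorted_inj (Ne.symm hcp) hap.symm
    (Ne.symm hbp) hca hcb (Ne.symm hba))) ![0, 1, 0, 0]
  have hhc : C1S.dot h (W c) = 1 := by simpa using hh 1
  have hha : C1S.dot h (W a) = 0 := by simpa using hh 2
  have hhb : C1S.dot h (W b) = 0 := by simpa using hh 3
  have hev : ∀ᶠ ε : ℝ in 𝓝[>] (0 : ℝ), (∀ d : Fin (m + 4), d ≠ a → d ≠ b → d ≠ c →
      0 < C1S.dot g3 (W d) + ε * C1S.dot h (W d)) ∧ 0 < ε := by
    refine (eventually_all.2 fun d => ?_).and self_mem_nhdsWithin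
    by_cases hd : d ≠ a ∧ d ≠ b ∧ d ≠ c
    · have hc : Continuous fun ε : ℝ => C1S.dot g3 (W d) + ε * C1S.dot h (W d) := by fun_prop
      have h0 : 0 < C1S.dot g3 (W d) + (0 : ℝ) * C1S.dot h (W d) := by
        simpa using hpos d hd.1 hd.2.1 hd.2.2
      have := (hc.tendsto 0).eventually (lt_mem_nhds h0)
      exact (this.filter_mono nhdsWithin_le_nhds).mono fun ε hε _ _ _ => hε
    · exact Filter.Eventually.of_forall fun ε h1 h2 h3 => absurd ⟨h1, h2, h3⟩ hd
  obtain ⟨ε, hε, hε0⟩ := hev.exists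
  refine ⟨a, b, fun x => g3 x + ε * h x, Ne.symm hba, ?_, ?_, fun d hda hdb => ?_⟩
  · rw [sorted_dot_add, hg3a', hha]; simp
  · rw [sorted_dot_add, hg3b', hhb]; simp
  · rw [sorted_dot_add]
    by_cases hdc : d = c
    · subst hdc
      rw [hgc, hhc]
      simpa using hε0
    · exact hε d hda hdb hdc

theorem sorted_dot_four (X w : Fin 4 → ℝ) :
    C1S.dot X w = X 0 * w 0 + X 1 * w 1 + X 2 * w 2 + X 3 * w 3 := by
  simp [C1S.dot, Fin.sum_univ_four]

/-- the fundamental identity: `X` vanishes at `a`, `b` -/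
theorem sorted_cramer (X a b c x y : Fin 4 → ℝ) (ha : C1S.dot X a = 0) (hb : C1S.dot X b = 0) :
    C1S.dot X c * BS9.D4 a b x y =
      C1S.dot X x * BS9.D4 a b c y - C1S.dot X y * BS9.D4 a b c x := by
  have h0 := BS9.cramer5 a b c x y 0
  have h1 := BS9.cramer5 a b c x y 1
  have h2 := BS9.cramer5 a b c x y 2
  have h3 := BS9.cramer5 a b c x y 3
  rw [sorted_dot_four] at ha hb ⊢
  rw [sorted_dot_four, sorted_dot_four]
  linear_combination X 0 * h0 + X 1 * h1 + X 2 * h2 + X 3 * h3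
    - BS9.D4 b c x y * ha + BS9.D4 a c x y * hb

theorem sorted_mat {n : ℕ} (W : Fin n → Fin 4 → ℝ) (s : Fin 4 → Fin n) :
    (C1S.mat W s).det = BS9.D4 (W (s 0)) (W (s 1)) (W (s 2)) (W (s 3)) := by
  rw [BS9.D4_eq_det]
  congr 1
  ext r a
  fin_cases r <;> rfl

theorem exists_sorted {m : ℕ} (W : Fin (m + 4) → Fin 4 → ℝ) (h3 : ∀ i, 0 < W i 3)
    (hne : ∀ s : Fin 4 → Fin (m + 4), Function.Injective s → (C1S.mat W s).det ≠ 0) :
    ∃ p : Equiv.Perm (Fin (m + 4)), ∀ i j : Fin (m + 4), 2 ≤ i → i < j →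
      0 < (C1S.mat (W ∘ p) ![0, 1, i, j]).det := by
  classical
  obtain ⟨a, b, X, hab, hXa, hXb, hX⟩ := sorted_edge W h3 hne
  obtain ⟨c, hca, hcb, -⟩ := sorted_other a b b
  set Y : Fin (m + 4) → ℝ := fun i => BS9.D4 (W a) (W b) (W c) (W i) with hY
  set κ : Fin (m + 4) → ℝ := fun i => Y i / C1S.dot X (W i) with hκ
  set S : ℝ := ∑ i, |κ i| with hS
  have hle : ∀ i, |κ i| ≤ S := fun i =>
    Finset.single_le_sum (f := fun i => |κ i|) (fun j _ => abs_nonneg _) (Finset.mem_univ i)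
  set κ' : Fin (m + 4) → ℝ := fun i => if i = a then - S - 2 else if i = b then - S - 1 else κ i
    with hκ'
  have hκa : κ' a = - S - 2 := by simp [hκ']
  have hκb : κ' b = - S - 1 := by simp [hκ', hab.symm]
  have hκo : ∀ i, i ≠ a → i ≠ b → κ' i = κ i := fun i h1 h2 => by simp [hκ', h1, h2]
  have hκlow : ∀ i, i ≠ a → i ≠ b → - S ≤ κ' i := fun i h1 h2 => by
    rw [hκo i h1 h2]; linarith [neg_abs_le (κ i), hle i]
  -- the key equivalence
  have hkey : ∀ i j, i ≠ a → i ≠ b → j ≠ a → j ≠ b →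
      C1S.dot X (W c) * BS9.D4 (W a) (W b) (W i) (W j) =
        C1S.dot X (W i) * C1S.dot X (W j) * (κ j - κ i) := by
    intro i j hia hib hja hjb
    have hi := hX i hia hib
    have hj := hX j hja hjb
    rw [sorted_cramer X (W a) (W b) (W c) (W i) (W j) hXa hXb]
    simp only [hκ, hY]
    field_simp
  have hc := hX c hca hcb
  have hinj : Function.Injective κ' := by
    intro i j hij
    by_contra hne'
    by_cases hia : i = a
    · subst hia
      by_cases hjb : j = b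
      · subst hjb; rw [hκa, hκb] at hij; linarith
      · have := hκlow j (Ne.symm hne') hjb; rw [← hij, hκa] at this; linarith
    by_cases hja : j = a
    · subst hja
      by_cases hib : i = b
      · subst hib; rw [hκa, hκb] at hij; linarith
      · have := hκlow i hia hib; rw [hij, hκa] at this; linarith
    by_cases hib : i = b
    · subst hib
      have := hκlow j hja (Ne.symm hne'); rw [← hij, hκb] at this; linarith
    by_cases hjb : j = b
    · subst hjb
      have := hκlow i hia hib; rw [hij, hκb] at this; linarith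
    rw [hκo i hia hib, hκo j hja hjb] at hij
    have h1 := hkey i j hia hib hja hjb
    rw [hij, sub_self, mul_zero] at h1
    have h2 := hne ![a, b, i, j] (sorted_inj hab (Ne.symm hia) (Ne.symm hja) (Ne.symm hib)
      (Ne.symm hjb) hne')
    rw [sorted_mat] at h2
    simp only [Matrix.cons_val_zero, Matrix.cons_val_one, Matrix.cons_val] at h2
    rcases mul_eq_zero.1 h1 with h | h
    · exact absurd h hc.ne'
    · exact h2 h
  have hmono : StrictMono (κ' ∘ Tuple.sort κ') :=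
    (Tuple.monotone_sort κ').strictMono_of_injective
      (hinj.comp (Tuple.sort κ').injective)
  set p := Tuple.sort κ' with hp
  have hmin : ∀ i, κ' a ≤ κ' i := by
    intro i
    by_cases hia : i = a
    · rw [hia]
    by_cases hib : i = b
    · rw [hib, hκa, hκb]; linarith
    have := hκlow i hia hib
    rw [hκa]; linarith
  have hmin2 : ∀ i, i ≠ a → κ' b ≤ κ' i := by
    intro i hia
    by_cases hib : i = b
    · rw [hib]
    have := hκlow i hia hib
    rw [hκb]; linarith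
  have h01 : (0 : Fin (m + 4)) < 1 := by
    rw [Fin.lt_def]; simp
  have hp0 : p 0 = a := by
    apply hinj
    apply le_antisymm _ (hmin _)
    have h := hmono.monotone (Fin.zero_le (p.symm a))
    simpa using h
  have hp1 : p 1 = b := by
    apply hinj
    have h1a : p 1 ≠ a := by
      intro h
      rw [← hp0] at h
      exact absurd (p.injective h) h01.ne'
    apply le_antisymm _ (hmin2 _ h1a)
    have hb0 : p.symm b ≠ 0 := by
      intro h
      have : b = p 0 := by rw [← h]; simp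
      rw [hp0] at this
      exact hab this.symm
    have h1le : (1 : Fin (m + 4)) ≤ p.symm b := by
      rw [Fin.le_def]
      have : (p.symm b : ℕ) ≠ 0 := fun h => hb0 (Fin.ext (by simpa using h))
      have h1 : ((1 : Fin (m + 4)) : ℕ) = 1 := by simp
      rw [h1]; omega
    have h := hmono.monotone h1le
    simpa using h
  refine ⟨p, fun i j hi hij => ?_⟩
  have h2v : ((2 : Fin (m + 4)) : ℕ) = 2 := by
    rw [Fin.val_two]
  have hi2 : 2 ≤ (i : ℕ) := by rw [Fin.le_def, h2v] at hi; exact hi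
  have hij' : (i : ℕ) < (j : ℕ) := by rwa [Fin.lt_def] at hij
  have hne0 : ∀ k : Fin (m + 4), 2 ≤ (k : ℕ) → p k ≠ a ∧ p k ≠ b := by
    intro k hk
    constructor
    · intro h
      rw [← hp0] at h
      have := p.injective h
      rw [this] at hk
      simp at hk
    · intro h
      rw [← hp1] at h
      have := p.injective h
      rw [this] at hk
      simp at hk
  obtain ⟨hia, hib⟩ := hne0 i hi2
  obtain ⟨hja, hjb⟩ := hne0 j (by omega)
  have hlt : κ (p i) < κ (p j) := by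
    have := hmono hij
    simp only [Function.comp] at this
    rwa [hκo _ hia hib, hκo _ hja hjb] at this
  have hk := hkey (p i) (p j) hia hib hja hjb
  have hpos : 0 < C1S.dot X (W c) * BS9.D4 (W a) (W b) (W (p i)) (W (p j)) := by
    rw [hk]
    exact mul_pos (mul_pos (hX _ hia hib) (hX _ hja hjb)) (by linarith)
  rw [sorted_mat]
  simp only [Matrix.cons_val_zero, Matrix.cons_val_one, Matrix.cons_val, Function.comp]
  rw [hp0, hp1]
  exact (mul_pos_iff_of_pos_left hc).1 hpos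

theorem strictClique_perm {n D : ℕ} {W : Fin n → Fin (D + 1) → ℝ} (h : C1S.StrictClique W)
    (p : Equiv.Perm (Fin n)) : C1S.StrictClique (W ∘ p) := by
  refine ⟨fun i => h.1 (p i), fun i j hij => ?_⟩
  obtain ⟨f, h1, h2, h3⟩ := h.2 (p i) (p j) (fun hp => hij (p.injective hp))
  exact ⟨f, h1, h2, fun k hki hkj => h3 (p k) (fun hp => hki (p.injective hp))
    (fun hp => hkj (p.injective hp))⟩

/-- what `Hyp` needs -/
theorem exists_sorted_strict {m : ℕ} {W : Fin (m + 4) → Fin 4 → ℝ} (h : C1S.StrictClique W)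
    (hne : ∀ s : Fin 4 → Fin (m + 4), Function.Injective s → (C1S.mat W s).det ≠ 0) :
    ∃ p : Equiv.Perm (Fin (m + 4)), C1S.StrictClique (W ∘ p) ∧
      (∀ s : Fin 4 → Fin (m + 4), Function.Injective s → (C1S.mat (W ∘ p) s).det ≠ 0) ∧
      ∀ i j : Fin (m + 4), 2 ≤ i → i < j → 0 < (C1S.mat (W ∘ p) ![0, 1, i, j]).det := by
  obtain ⟨p, hp⟩ := exists_sorted W (fun i => h.1 i) hne
  exact ⟨p, strictClique_perm h p, fun s hs => hne (p ∘ s) (p.injective.comp hs), hp⟩

end N8S
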