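import Pool.Agent.C1S.Sep
import Pool.Agent.N8S.Cert
import Pool.Agent.N8S.Sorted

/-!
# Strict cliques in dimension 3 have at most seven members
-/

set_option autoImplicit false

namespace N8S

open C1S

theorem no_strict8 (W : Fin 8 → Fin 4 → ℝ) : ¬ StrictClique W := by
  intro h
  obtain ⟨W', h1, h2, -, h4⟩ := exists_pert W h.1
  obtain ⟨p, k1, k2, k3⟩ := exists_sorted_strict (m := 4) (h4 h) h2
  exact cert (W' ∘ p) ⟨k2, k1, k3⟩

/-- At most seven members. -/
theorem strict_le_seven {n : ℕ} (W : Fin n → Fin 4 → ℝ) (h : StrictClique W) : n ≤ 7 := by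
  by_contra hn
  push Not at hn
  have hei : Function.Injective (Fin.castLE (show 8 ≤ n by omega)) := Fin.castLE_injective _
  refine no_strict8 (fun i => W (Fin.castLE (show 8 ≤ n by omega) i)) ⟨fun i => h.1 _, ?_⟩
  intro i j hij
  obtain ⟨f, h1, h2, h3⟩ := h.2 _ _ fun h => hij (hei h)
  exact ⟨f, h1, h2, fun k hki hkj => h3 _ (fun h => hki (hei h)) fun h => hkj (hei h)⟩

end N8S
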