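import Pool.Agent.N8S.Sem

/-!
# Grassmann - Plücker relations in the sorted form, and the relations of the lifted determinants
-/

set_option autoImplicit false

namespace N8S

open BS9

section

variable (v : ℕ → Fin 4 → ℝ) (e : ℕ → Bool)
theorem XX01 : XX v 0 1 = D4 (v 2) (v 3) (v 4) (v 5) := rfl
theorem XX02 : XX v 0 2 = D4 (v 1) (v 3) (v 4) (v 5) := rfl
theorem XX03 : XX v 0 3 = D4 (v 1) (v 2) (v 4) (v 5) := rfl
theorem XX04 : XX v 0 4 = D4 (v 1) (v 2) (v 3) (v 5) := rfl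
theorem XX05 : XX v 0 5 = D4 (v 1) (v 2) (v 3) (v 4) := rfl
theorem XX12 : XX v 1 2 = D4 (v 0) (v 3) (v 4) (v 5) := rfl
theorem XX13 : XX v 1 3 = D4 (v 0) (v 2) (v 4) (v 5) := rfl
theorem XX14 : XX v 1 4 = D4 (v 0) (v 2) (v 3) (v 5) := rfl
theorem XX15 : XX v 1 5 = D4 (v 0) (v 2) (v 3) (v 4) := rfl
theorem XX23 : XX v 2 3 = D4 (v 0) (v 1) (v 4) (v 5) := rfl
theorem XX24 : XX v 2 4 = D4 (v 0) (v 1) (v 3) (v 5) := rfl
theorem XX25 : XX v 2 5 = D4 (v 0) (v 1) (v 3) (v 4) := rfl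
theorem XX34 : XX v 3 4 = D4 (v 0) (v 1) (v 2) (v 5) := rfl
theorem XX35 : XX v 3 5 = D4 (v 0) (v 1) (v 2) (v 4) := rfl
theorem XX45 : XX v 4 5 = D4 (v 0) (v 1) (v 2) (v 3) := rfl

theorem gp0123 : XX v 0 1 * XX v 2 3 - XX v 0 2 * XX v 1 3 + XX v 0 3 * XX v 1 2 = 0 := by
  rw [XX01, XX23, XX02, XX13, XX03, XX12]
  unfold D4
  ring

theorem gp0124 : XX v 0 1 * XX v 2 4 - XX v 0 2 * XX v 1 4 + XX v 0 4 * XX v 1 2 = 0 := by
  rw [XX01, XX24, XX02, XX14, XX04, XX12]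
  unfold D4
  ring

theorem gp0125 : XX v 0 1 * XX v 2 5 - XX v 0 2 * XX v 1 5 + XX v 0 5 * XX v 1 2 = 0 := by
  rw [XX01, XX25, XX02, XX15, XX05, XX12]
  unfold D4
  ring

theorem gp0134 : XX v 0 1 * XX v 3 4 - XX v 0 3 * XX v 1 4 + XX v 0 4 * XX v 1 3 = 0 := by
  rw [XX01, XX34, XX03, XX14, XX04, XX13]
  unfold D4
  ring

theorem gp0135 : XX v 0 1 * XX v 3 5 - XX v 0 3 * XX v 1 5 + XX v 0 5 * XX v 1 3 = 0 := by
  rw [XX01, XX35, XX03, XX15, XX05, XX13]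
  unfold D4
  ring

theorem gp0145 : XX v 0 1 * XX v 4 5 - XX v 0 4 * XX v 1 5 + XX v 0 5 * XX v 1 4 = 0 := by
  rw [XX01, XX45, XX04, XX15, XX05, XX14]
  unfold D4
  ring

theorem gp0234 : XX v 0 2 * XX v 3 4 - XX v 0 3 * XX v 2 4 + XX v 0 4 * XX v 2 3 = 0 := by
  rw [XX02, XX34, XX03, XX24, XX04, XX23]
  unfold D4
  ring

theorem gp0235 : XX v 0 2 * XX v 3 5 - XX v 0 3 * XX v 2 5 + XX v 0 5 * XX v 2 3 = 0 := by
  rw [XX02, XX35, XX03, XX25, XX05, XX23]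
  unfold D4
  ring

theorem gp0245 : XX v 0 2 * XX v 4 5 - XX v 0 4 * XX v 2 5 + XX v 0 5 * XX v 2 4 = 0 := by
  rw [XX02, XX45, XX04, XX25, XX05, XX24]
  unfold D4
  ring

theorem gp0345 : XX v 0 3 * XX v 4 5 - XX v 0 4 * XX v 3 5 + XX v 0 5 * XX v 3 4 = 0 := by
  rw [XX03, XX45, XX04, XX35, XX05, XX34]
  unfold D4
  ring

theorem gp1234 : XX v 1 2 * XX v 3 4 - XX v 1 3 * XX v 2 4 + XX v 1 4 * XX v 2 3 = 0 := by
  rw [XX12, XX34, XX13, XX24, XX14, XX23]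
  unfold D4
  ring

theorem gp1235 : XX v 1 2 * XX v 3 5 - XX v 1 3 * XX v 2 5 + XX v 1 5 * XX v 2 3 = 0 := by
  rw [XX12, XX35, XX13, XX25, XX15, XX23]
  unfold D4
  ring

theorem gp1245 : XX v 1 2 * XX v 4 5 - XX v 1 4 * XX v 2 5 + XX v 1 5 * XX v 2 4 = 0 := by
  rw [XX12, XX45, XX14, XX25, XX15, XX24]
  unfold D4
  ring

theorem gp1345 : XX v 1 3 * XX v 4 5 - XX v 1 4 * XX v 3 5 + XX v 1 5 * XX v 3 4 = 0 := by
  rw [XX13, XX45, XX14, XX35, XX15, XX34]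
  unfold D4
  ring

theorem gp2345 : XX v 2 3 * XX v 4 5 - XX v 2 4 * XX v 3 5 + XX v 2 5 * XX v 3 4 = 0 := by
  rw [XX23, XX45, XX24, XX35, XX25, XX34]
  unfold D4
  ring

theorem SS0 : SS v e 0 =
    sb (e 1) * XX v 0 1 - sb (e 2) * XX v 0 2 + sb (e 3) * XX v 0 3 - sb (e 4) * XX v 0 4 + sb (e 5) * XX v 0 5 := rfl

theorem SS1 : SS v e 1 =
    sb (e 0) * XX v 0 1 - sb (e 2) * XX v 1 2 + sb (e 3) * XX v 1 3 - sb (e 4) * XX v 1 4 + sb (e 5) * XX v 1 5 := rfl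

theorem SS2 : SS v e 2 =
    sb (e 0) * XX v 0 2 - sb (e 1) * XX v 1 2 + sb (e 3) * XX v 2 3 - sb (e 4) * XX v 2 4 + sb (e 5) * XX v 2 5 := rfl

theorem SS3 : SS v e 3 =
    sb (e 0) * XX v 0 3 - sb (e 1) * XX v 1 3 + sb (e 2) * XX v 2 3 - sb (e 4) * XX v 3 4 + sb (e 5) * XX v 3 5 := rfl

theorem SS4 : SS v e 4 =
    sb (e 0) * XX v 0 4 - sb (e 1) * XX v 1 4 + sb (e 2) * XX v 2 4 - sb (e 3) * XX v 3 4 + sb (e 5) * XX v 4 5 := rfl

theorem SS5 : SS v e 5 =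
    sb (e 0) * XX v 0 5 - sb (e 1) * XX v 1 5 + sb (e 2) * XX v 2 5 - sb (e 3) * XX v 3 5 + sb (e 4) * XX v 4 5 := rfl

theorem mx012 : SS v e 0 * XX v 1 2 - SS v e 1 * XX v 0 2 + SS v e 2 * XX v 0 1 = 0 := by
  rw [SS0, SS1, SS2]
  linear_combination (sb (e 3)) * gp0123 v + (-sb (e 4)) * gp0124 v + (sb (e 5)) * gp0125 v

theorem mx013 : SS v e 0 * XX v 1 3 - SS v e 1 * XX v 0 3 + SS v e 3 * XX v 0 1 = 0 := by
  rw [SS0, SS1, SS3]
  linear_combination (sb (e 2)) * gp0123 v + (-sb (e 4)) * gp0134 v + (sb (e 5)) * gp0135 v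

theorem mx014 : SS v e 0 * XX v 1 4 - SS v e 1 * XX v 0 4 + SS v e 4 * XX v 0 1 = 0 := by
  rw [SS0, SS1, SS4]
  linear_combination (sb (e 2)) * gp0124 v + (-sb (e 3)) * gp0134 v + (sb (e 5)) * gp0145 v

theorem mx015 : SS v e 0 * XX v 1 5 - SS v e 1 * XX v 0 5 + SS v e 5 * XX v 0 1 = 0 := by
  rw [SS0, SS1, SS5]
  linear_combination (sb (e 2)) * gp0125 v + (-sb (e 3)) * gp0135 v + (sb (e 4)) * gp0145 v

theorem mx023 : SS v e 0 * XX v 2 3 - SS v e 2 * XX v 0 3 + SS v e 3 * XX v 0 2 = 0 := by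
  rw [SS0, SS2, SS3]
  linear_combination (sb (e 1)) * gp0123 v + (-sb (e 4)) * gp0234 v + (sb (e 5)) * gp0235 v

theorem mx024 : SS v e 0 * XX v 2 4 - SS v e 2 * XX v 0 4 + SS v e 4 * XX v 0 2 = 0 := by
  rw [SS0, SS2, SS4]
  linear_combination (sb (e 1)) * gp0124 v + (-sb (e 3)) * gp0234 v + (sb (e 5)) * gp0245 v

theorem mx025 : SS v e 0 * XX v 2 5 - SS v e 2 * XX v 0 5 + SS v e 5 * XX v 0 2 = 0 := by
  rw [SS0, SS2, SS5]
  linear_combination (sb (e 1)) * gp0125 v + (-sb (e 3)) * gp0235 v + (sb (e 4)) * gp0245 v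

theorem mx034 : SS v e 0 * XX v 3 4 - SS v e 3 * XX v 0 4 + SS v e 4 * XX v 0 3 = 0 := by
  rw [SS0, SS3, SS4]
  linear_combination (sb (e 1)) * gp0134 v + (-sb (e 2)) * gp0234 v + (sb (e 5)) * gp0345 v

theorem mx035 : SS v e 0 * XX v 3 5 - SS v e 3 * XX v 0 5 + SS v e 5 * XX v 0 3 = 0 := by
  rw [SS0, SS3, SS5]
  linear_combination (sb (e 1)) * gp0135 v + (-sb (e 2)) * gp0235 v + (sb (e 4)) * gp0345 v

theorem mx045 : SS v e 0 * XX v 4 5 - SS v e 4 * XX v 0 5 + SS v e 5 * XX v 0 4 = 0 := by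
  rw [SS0, SS4, SS5]
  linear_combination (sb (e 1)) * gp0145 v + (-sb (e 2)) * gp0245 v + (sb (e 3)) * gp0345 v

theorem mx123 : SS v e 1 * XX v 2 3 - SS v e 2 * XX v 1 3 + SS v e 3 * XX v 1 2 = 0 := by
  rw [SS1, SS2, SS3]
  linear_combination (sb (e 0)) * gp0123 v + (-sb (e 4)) * gp1234 v + (sb (e 5)) * gp1235 v

theorem mx124 : SS v e 1 * XX v 2 4 - SS v e 2 * XX v 1 4 + SS v e 4 * XX v 1 2 = 0 := by
  rw [SS1, SS2, SS4]
  linear_combination (sb (e 0)) * gp0124 v + (-sb (e 3)) * gp1234 v + (sb (e 5)) * gp1245 v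

theorem mx125 : SS v e 1 * XX v 2 5 - SS v e 2 * XX v 1 5 + SS v e 5 * XX v 1 2 = 0 := by
  rw [SS1, SS2, SS5]
  linear_combination (sb (e 0)) * gp0125 v + (-sb (e 3)) * gp1235 v + (sb (e 4)) * gp1245 v

theorem mx134 : SS v e 1 * XX v 3 4 - SS v e 3 * XX v 1 4 + SS v e 4 * XX v 1 3 = 0 := by
  rw [SS1, SS3, SS4]
  linear_combination (sb (e 0)) * gp0134 v + (-sb (e 2)) * gp1234 v + (sb (e 5)) * gp1345 v

theorem mx135 : SS v e 1 * XX v 3 5 - SS v e 3 * XX v 1 5 + SS v e 5 * XX v 1 3 = 0 := by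
  rw [SS1, SS3, SS5]
  linear_combination (sb (e 0)) * gp0135 v + (-sb (e 2)) * gp1235 v + (sb (e 4)) * gp1345 v

theorem mx145 : SS v e 1 * XX v 4 5 - SS v e 4 * XX v 1 5 + SS v e 5 * XX v 1 4 = 0 := by
  rw [SS1, SS4, SS5]
  linear_combination (sb (e 0)) * gp0145 v + (-sb (e 2)) * gp1245 v + (sb (e 3)) * gp1345 v

theorem mx234 : SS v e 2 * XX v 3 4 - SS v e 3 * XX v 2 4 + SS v e 4 * XX v 2 3 = 0 := by
  rw [SS2, SS3, SS4]
  linear_combination (sb (e 0)) * gp0234 v + (-sb (e 1)) * gp1234 v + (sb (e 5)) * gp2345 v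

theorem mx235 : SS v e 2 * XX v 3 5 - SS v e 3 * XX v 2 5 + SS v e 5 * XX v 2 3 = 0 := by
  rw [SS2, SS3, SS5]
  linear_combination (sb (e 0)) * gp0235 v + (-sb (e 1)) * gp1235 v + (sb (e 4)) * gp2345 v

theorem mx245 : SS v e 2 * XX v 4 5 - SS v e 4 * XX v 2 5 + SS v e 5 * XX v 2 4 = 0 := by
  rw [SS2, SS4, SS5]
  linear_combination (sb (e 0)) * gp0245 v + (-sb (e 1)) * gp1245 v + (sb (e 3)) * gp2345 v

theorem mx345 : SS v e 3 * XX v 4 5 - SS v e 4 * XX v 3 5 + SS v e 5 * XX v 3 4 = 0 := by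
  rw [SS3, SS4, SS5]
  linear_combination (sb (e 0)) * gp0345 v + (-sb (e 1)) * gp1345 v + (sb (e 2)) * gp2345 v

theorem GPall : ∀ s < 6, ∀ r < s, ∀ q < r, ∀ p < q,
    XX v p q * XX v r s - XX v p r * XX v q s + XX v p s * XX v q r = 0 := by
  intro s hs r hr q hq p hp
  interval_cases s <;> interval_cases r <;> interval_cases q <;> interval_cases p <;>
    first | exact gp0123 v | exact gp0124 v | exact gp0125 v | exact gp0134 v | exact gp0135 v | exact gp0145 v | exact gp0234 v | exact gp0235 v | exact gp0245 v | exact gp0345 v | exact gp1234 v | exact gp1235 v | exact gp1245 v | exact gp1345 v | exact gp2345 v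

theorem MXall : ∀ r < 6, ∀ q < r, ∀ p < q,
    SS v e p * XX v q r - SS v e q * XX v p r + SS v e r * XX v p q = 0 := by
  intro r hr q hq p hp
  interval_cases r <;> interval_cases q <;> interval_cases p <;>
    first | exact mx012 v e | exact mx013 v e | exact mx014 v e | exact mx015 v e | exact mx023 v e | exact mx024 v e | exact mx025 v e | exact mx034 v e | exact mx035 v e | exact mx045 v e | exact mx123 v e | exact mx124 v e | exact mx125 v e | exact mx134 v e | exact mx135 v e | exact mx145 v e | exact mx234 v e | exact mx235 v e | exact mx245 v e | exact mx345 v e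

end

end N8S
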