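import Pool.Agent.BS9.Det
import Pool.Agent.C1S.Rel

/-!
# The meaning of the clauses: eight vectors of `ℝ ^ 4`

Variables `x < 70`: the determinant of the 4-subset with number `x` is positive.  Variables
`70 + 32 b + 16 e4 + 8 e3 + 4 e2 + 2 e1 + s`: the lifted determinant of the 5-subset with number `b`
and the signs `(0, e1, e2, e3, e4)` is positive (`s = 0`) or negative (`s = 1`).
-/

set_option autoImplicit false

namespace N8S

open BS9

/-- octal digits -/
def dg (B k : ℕ) : ℕ := Nat.mod (Nat.div B (Nat.pow 8 k)) 8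

/-- skip the position `k` -/
def skip (k i : ℕ) : ℕ := bif Nat.blt i k then i else Nat.succ i

/-- the number of a 4-subset -/
def r4 (a b c d : ℕ) : ℕ :=
  a + b * (b - 1) / 2 + c * (c - 1) * (c - 2) / 6 + d * (d - 1) * (d - 2) * (d - 3) / 24

/-- the number of a 5-subset -/
def r5 (a b c d e : ℕ) : ℕ :=
  r4 a b c d + e * (e - 1) * (e - 2) * (e - 3) * (e - 4) / 120

/-- the 4-subsets -/
def T4 : List ℕ := [
  1672, 2184, 2248, 2256, 2257, 2696, 2760, 2768, 2769, 2824, 2832, 2833, 2840, 2841, 2842,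
  3208, 3272, 3280, 3281, 3336, 3344, 3345, 3352, 3353, 3354, 3400, 3408, 3409, 3416, 3417,
  3418, 3424, 3425, 3426, 3427, 3720, 3784, 3792, 3793, 3848, 3856, 3857, 3864, 3865, 3866,
  3912, 3920, 3921, 3928, 3929, 3930, 3936, 3937, 3938, 3939, 3976, 3984, 3985, 3992, 3993,
  3994, 4000, 4001, 4002, 4003, 4008, 4009, 4010, 4011, 4012]

/-- the 5-subsets -/
def T5 : List ℕ := [
  18056, 22152, 22664, 22728, 22736, 22737, 26248, 26760, 26824, 26832, 26833, 27272, 27336,
  27344, 27345, 27400, 27408, 27409, 27416, 27417, 27418, 30344, 30856, 30920, 30928, 30929,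
  31368, 31432, 31440, 31441, 31496, 31504, 31505, 31512, 31513, 31514, 31880, 31944, 31952,
  31953, 32008, 32016, 32017, 32024, 32025, 32026, 32072, 32080, 32081, 32088, 32089, 32090,
  32096, 32097, 32098, 32099]

/-- the 6-subsets -/
def A6 : List ℕ := [
  181896, 214664, 247432, 218760, 251528, 255624, 219272, 252040, 256136, 256648, 219336,
  252104, 256200, 256712, 256776, 219344, 252112, 256208, 256720, 256784, 256792, 219345,
  252113, 256209, 256721, 256785, 256793, 256794]

/-- the sign of a bit -/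
def sb (b : Bool) : ℝ := if b then -1 else 1

theorem sb_xor (a b : Bool) : sb (xor a b) = sb a * sb b := by
  cases a <;> cases b <;> simp [sb]

theorem sb_not (a : Bool) : sb (!a) = - sb a := by cases a <;> simp [sb]

theorem sb_mul_self (a : Bool) : sb a * sb a = 1 := by cases a <;> simp [sb]

/-- 0 or 1 -/
def bn (b : Bool) : ℕ := bif b then 1 else 0

section

variable (W : Fin 8 → Fin 4 → ℝ)

/-- the vectors -/
def w (n : ℕ) : Fin 4 → ℝ := W (Fin.ofNat 8 n)

/-- the vectors of a packed set -/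
def vs (B i : ℕ) : Fin 4 → ℝ := w W (dg B i)

/-- determinant of a packed 4-set -/
def XB (Q : ℕ) : ℝ := D4 (vs W Q 0) (vs W Q 1) (vs W Q 2) (vs W Q 3)

end

/-- the minors of five vectors -/
def XK (v : ℕ → Fin 4 → ℝ) (k : ℕ) : ℝ :=
  D4 (v (skip k 0)) (v (skip k 1)) (v (skip k 2)) (v (skip k 3))

/-- the lifted determinant -/
def sigv (v : ℕ → Fin 4 → ℝ) (e : ℕ → Bool) : ℝ :=
  sb (e 0) * XK v 0 - sb (e 1) * XK v 1 + sb (e 2) * XK v 2 - sb (e 3) * XK v 3 + sb (e 4) * XK v 4

/-- the signs of the variable `m` -/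
def eb (m : ℕ) (k : ℕ) : Bool := if k = 0 then false else decide (m / 2 ^ k % 2 = 1)

/-- the value of a variable -/
noncomputable def val (W : Fin 8 → Fin 4 → ℝ) (x : ℕ) : Bool :=
  if x < 70 then decide (0 < XB W (T4.getD x 0)) else
    if (x - 70) % 2 = 1 then decide (sigv (vs W (T5.getD ((x - 70) / 32) 0)) (eb (x - 70)) < 0)
    else decide (0 < sigv (vs W (T5.getD ((x - 70) / 32) 0)) (eb (x - 70)))

/-- the variable of a lifted determinant: `s = true` for negative -/
def skey (b : ℕ) (e : ℕ → Bool) (s : Bool) : ℕ :=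
  70 + (32 * b + (bif e 0 then 16 * bn (!e 4) + 8 * bn (!e 3) + 4 * bn (!e 2) + 2 * bn (!e 1) + bn (!s)
    else 16 * bn (e 4) + 8 * bn (e 3) + 4 * bn (e 2) + 2 * bn (e 1) + bn s))

theorem sigv_congr {v : ℕ → Fin 4 → ℝ} {e e' : ℕ → Bool} (h : ∀ k < 5, e k = e' k) :
    sigv v e = sigv v e' := by
  unfold sigv
  rw [h 0 (by norm_num), h 1 (by norm_num), h 2 (by norm_num), h 3 (by norm_num),
    h 4 (by norm_num)]

theorem sigv_not (v : ℕ → Fin 4 → ℝ) (e : ℕ → Bool) :
    sigv v (fun k => !e k) = - sigv v e := by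
  unfold sigv
  simp only [sb_not]
  ring

theorem val_aux (W : Fin 8 → Fin 4 → ℝ) (b : ℕ) (e1 e2 e3 e4 s : Bool) :
    val W (70 + (32 * b + (16 * bn e4 + 8 * bn e3 + 4 * bn e2 + 2 * bn e1 + bn s))) =
      bif s then decide (sigv (vs W (T5.getD b 0)) (fun k => if k = 0 then false else
        if k = 1 then e1 else if k = 2 then e2 else if k = 3 then e3 else e4) < 0)
      else decide (0 < sigv (vs W (T5.getD b 0)) (fun k => if k = 0 then false else
        if k = 1 then e1 else if k = 2 then e2 else if k = 3 then e3 else e4)) := by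
  have hlt : bn s < 2 ∧ bn e1 < 2 ∧ bn e2 < 2 ∧ bn e3 < 2 ∧ bn e4 < 2 := by
    refine ⟨?_, ?_, ?_, ?_, ?_⟩
    · cases s <;> decide
    · cases e1 <;> decide
    · cases e2 <;> decide
    · cases e3 <;> decide
    · cases e4 <;> decide
  have hb : ∀ c : Bool, decide (bn c = 1) = c := by intro c; cases c <;> rfl
  set m := 32 * b + (16 * bn e4 + 8 * bn e3 + 4 * bn e2 + 2 * bn e1 + bn s) with hm
  have h1 : ¬ (70 + m < 70) := by omega
  have h2 : 70 + m - 70 = m := by omega
  have h3 : m / 32 = b := by omega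
  have h4 : m % 2 = bn s := by omega
  have h5 : ∀ k < 5, eb m k = (fun k => if k = 0 then false else
        if k = 1 then e1 else if k = 2 then e2 else if k = 3 then e3 else e4) k := by
    intro k hk
    interval_cases k
    · rfl
    · have : m / 2 ^ 1 % 2 = bn e1 := by omega
      simp only [eb, this, hb]
      simp
    · have : m / 2 ^ 2 % 2 = bn e2 := by omega
      simp only [eb, this, hb]
      simp
    · have : m / 2 ^ 3 % 2 = bn e3 := by omega
      simp only [eb, this, hb]
      simp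
    · have : m / 2 ^ 4 % 2 = bn e4 := by omega
      simp only [eb, this, hb]
      simp
  unfold val
  rw [if_neg h1, h2, h3, h4, sigv_congr h5]
  cases s <;> simp [bn]

/-- the meaning of the lifted variables -/
theorem val_skey (W : Fin 8 → Fin 4 → ℝ) (b : ℕ) (e : ℕ → Bool) (s : Bool) :
    val W (skey b e s) = bif s then decide (sigv (vs W (T5.getD b 0)) e < 0)
      else decide (0 < sigv (vs W (T5.getD b 0)) e) := by
  unfold skey
  cases h0 : e 0 with
  | false =>
    rw [cond_false, val_aux]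
    have h5 : ∀ k < 5, (fun k => if k = 0 then false else
        if k = 1 then e 1 else if k = 2 then e 2 else if k = 3 then e 3 else e 4) k = e k := by
      intro k hk
      interval_cases k <;> simp [h0]
    rw [sigv_congr h5]
  | true =>
    rw [cond_true, val_aux]
    have h5 : ∀ k < 5, (fun k => if k = 0 then false else
        if k = 1 then !e 1 else if k = 2 then !e 2 else if k = 3 then !e 3 else !e 4) k =
          (fun k => !e k) k := by
      intro k hk
      interval_cases k <;> simp [h0]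
    rw [sigv_congr h5, sigv_not]
    cases s with
    | false => simp
    | true => simp

/-- the variable of a determinant -/
def xkey (B k : ℕ) : ℕ :=
  r4 (dg B (skip k 0)) (dg B (skip k 1)) (dg B (skip k 2)) (dg B (skip k 3))

/-- the determinant variables of a 5-subset -/
theorem T4_xkey : ∀ b < 56, ∀ k < 5, xkey (T5.getD b 0) k < 70 ∧ ∀ i < 4,
    dg (T4.getD (xkey (T5.getD b 0) k) 0) i = dg (T5.getD b 0) (skip k i) := by
  decide +kernel

theorem val_xkey (W : Fin 8 → Fin 4 → ℝ) {b k : ℕ} (hb : b < 56) (hk : k < 5) :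
    val W (xkey (T5.getD b 0) k) = decide (0 < XK (vs W (T5.getD b 0)) k) := by
  obtain ⟨h1, h2⟩ := T4_xkey b hb k hk
  unfold val
  rw [if_pos h1]
  unfold XB XK vs
  rw [h2 0 (by norm_num), h2 1 (by norm_num), h2 2 (by norm_num), h2 3 (by norm_num)]

/-- the variable of a determinant of a 6-subset without the positions `k < l` -/
def xkey2 (A k l : ℕ) : ℕ :=
  r4 (dg A (skip l (skip k 0))) (dg A (skip l (skip k 1))) (dg A (skip l (skip k 2)))
    (dg A (skip l (skip k 3)))

/-- the minors of six vectors -/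
def XX (v : ℕ → Fin 4 → ℝ) (k l : ℕ) : ℝ :=
  D4 (v (skip l (skip k 0))) (v (skip l (skip k 1))) (v (skip l (skip k 2))) (v (skip l (skip k 3)))

theorem T4_xkey2 : ∀ a < 28, ∀ l < 6, ∀ k < l, xkey2 (A6.getD a 0) k l < 70 ∧ ∀ i < 4,
    dg (T4.getD (xkey2 (A6.getD a 0) k l) 0) i = dg (A6.getD a 0) (skip l (skip k i)) := by
  decide +kernel

theorem val_xkey2 (W : Fin 8 → Fin 4 → ℝ) {a k l : ℕ} (ha : a < 28) (hkl : k < l) (hl : l < 6) :
    val W (xkey2 (A6.getD a 0) k l) = decide (0 < XX (vs W (A6.getD a 0)) k l) := by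
  obtain ⟨h1, h2⟩ := T4_xkey2 a ha l hl k hkl
  unfold val
  rw [if_pos h1]
  unfold XB XX vs
  rw [h2 0 (by norm_num), h2 1 (by norm_num), h2 2 (by norm_num), h2 3 (by norm_num)]

/-- the number of the 5-subset obtained from a 6-subset -/
def r5A (A p : ℕ) : ℕ :=
  r5 (dg A (skip p 0)) (dg A (skip p 1)) (dg A (skip p 2)) (dg A (skip p 3)) (dg A (skip p 4))

theorem T5_r5A : ∀ a < 28, ∀ p < 6, ∀ i < 5,
    dg (T5.getD (r5A (A6.getD a 0) p) 0) i = dg (A6.getD a 0) (skip p i) := by
  decide +kernel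

theorem skip_lt {k i : ℕ} (hi : i < 4) : skip k i < 5 := by
  unfold skip
  cases Nat.blt i k <;> simp <;> omega

theorem sigv_congr' {v v' : ℕ → Fin 4 → ℝ} (h : ∀ k < 5, v k = v' k) (e : ℕ → Bool) :
    sigv v e = sigv v' e := by
  unfold sigv XK
  simp only [h _ (skip_lt (by norm_num : (0 : ℕ) < 4)), h _ (skip_lt (by norm_num : (1 : ℕ) < 4)),
    h _ (skip_lt (by norm_num : (2 : ℕ) < 4)), h _ (skip_lt (by norm_num : (3 : ℕ) < 4))]

/-- the lifted determinants of six vectors without the position `p` -/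
def SS (v : ℕ → Fin 4 → ℝ) (e : ℕ → Bool) (p : ℕ) : ℝ :=
  sigv (fun i => v (skip p i)) (fun i => e (skip p i))

theorem val_SS (W : Fin 8 → Fin 4 → ℝ) {a p : ℕ} (ha : a < 28) (hp : p < 6) (e : ℕ → Bool)
    (s : Bool) :
    val W (skey (r5A (A6.getD a 0) p) (fun i => e (skip p i)) s) =
      bif s then decide (SS (vs W (A6.getD a 0)) e p < 0)
        else decide (0 < SS (vs W (A6.getD a 0)) e p) := by
  rw [val_skey]
  have h : sigv (vs W (T5.getD (r5A (A6.getD a 0) p) 0)) (fun i => e (skip p i)) =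
      SS (vs W (A6.getD a 0)) e p := by
    unfold SS
    apply sigv_congr'
    intro k hk
    unfold vs
    rw [T5_r5A a ha p hp k hk]
  rw [h]

end N8S
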