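import Pool.Agent.N8S.Sorted

/-! MP_c1e66d_co: sorting the members of an arbitrary light configuration (weak form). -/

set_option autoImplicit false

namespace N8S

/-- every light configuration can be relabelled so that all `det (W 0, W 1, W i, W j)`,
`2 ≤ i < j`, are nonnegative -/
theorem exists_sorted_weak {m : ℕ} (W : Fin (m + 4) → Fin 4 → ℝ) (h3 : ∀ i, 0 < W i 3) :
    ∃ p : Equiv.Perm (Fin (m + 4)), ∀ i j : Fin (m + 4), 2 ≤ i → i < j →
      0 ≤ (C1S.mat (W ∘ p) ![0, 1, i, j]).det := by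
  obtain ⟨W', hW', hne, hsg, -⟩ := C1S.exists_pert (W := W) h3
  obtain ⟨p, hp⟩ := exists_sorted W' hW' hne
  refine ⟨p, fun i j hi hij => ?_⟩
  by_contra hlt
  push Not at hlt
  have h1 := hp i j hi hij
  have h2 : (C1S.mat (W ∘ p) ![0, 1, i, j]) = C1S.mat W (p ∘ ![0, 1, i, j]) := rfl
  have h3 : (C1S.mat (W' ∘ p) ![0, 1, i, j]) = C1S.mat W' (p ∘ ![0, 1, i, j]) := rfl
  rw [h2] at hlt
  rw [h3] at h1
  have h4 := hsg (p ∘ ![0, 1, i, j]) hlt.ne
  have h5 := mul_neg_of_neg_of_pos hlt h1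
  linarith

end N8S
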